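import Mathlib

/-! The numerical inequality for `N ≥ 16`. -/

set_option autoImplicit false

namespace Pool.Agent.Lib.MP_1818ed_co.C4

open Finset Real

theorem log_three_le : Real.log 3 ≤ 1.1 := by
  rw [Real.log_le_iff_le_exp (by norm_num)]
  have h := Real.sum_le_exp_of_nonneg (x := 1.1) (by norm_num) 7
  refine le_trans ?_ h
  norm_num [Finset.sum_range_succ, Nat.factorial]

theorem exp_ge (t : ℝ) (ht : 0.8119 ≤ t) : 2.25 ≤ Real.exp t := by
  refine le_trans ?_ (Real.exp_le_exp.2 ht)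
  have h := Real.sum_le_exp_of_nonneg (x := 0.8119) (by norm_num) 6
  refine le_trans ?_ h
  norm_num [Finset.sum_range_succ, Nat.factorial]

/-- the chord of the logarithm between `1/2` and `3/2` -/
theorem log_chord (u : ℝ) (h1 : 1 / 2 ≤ u) (h2 : u ≤ 3 / 2) :
    -Real.log 2 + (u - 1 / 2) * Real.log 3 ≤ Real.log u := by
  have hc := strictConcaveOn_log_Ioi.concaveOn
  have hx1 : (1 / 2 : ℝ) ∈ Set.Ioi (0 : ℝ) := by norm_num
  have hy1 : (3 / 2 : ℝ) ∈ Set.Ioi (0 : ℝ) := by norm_num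
  have ha1 : 0 ≤ 1 - (u - 1 / 2) := by linarith
  have hb1 : 0 ≤ u - 1 / 2 := by linarith
  have h := hc.2 hx1 hy1 ha1 hb1 (by ring)
  simp only [smul_eq_mul] at h
  have e1 : (1 - (u - 1 / 2)) * (1 / 2) + (u - 1 / 2) * (3 / 2) = u := by ring
  rw [e1] at h
  have e2 : Real.log (1 / 2) = -Real.log 2 := by
    rw [one_div, Real.log_inv]
  have e3 : Real.log (3 / 2) = Real.log 3 - Real.log 2 :=
    Real.log_div (by norm_num) (by norm_num)
  rw [e2, e3] at h
  linarith

theorem big_w (k : ℕ) : 100 * (100 * (k + 16) + 1) ^ (k + 13) ≤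
    (100 * (k + 16) + 1) * (100 * (k + 15) + 1) ^ (k + 13) := by
  have hk : (0 : ℝ) ≤ k := Nat.cast_nonneg k
  have hc : (0 : ℝ) < 100 * (k + 15) + 1 := by positivity
  have h1 : (100 * ((k : ℝ) + 16) + 1) / (100 * (k + 15) + 1) =
      100 / (100 * (k + 15) + 1) + 1 := by
    field_simp
    ring
  have h2 : ((100 * ((k : ℝ) + 16) + 1) / (100 * (k + 15) + 1)) ^ (k + 13) ≤ 3 := by
    rw [h1]
    have h3 := Real.add_one_le_exp (100 / (100 * ((k : ℝ) + 15) + 1))
    calc (100 / (100 * ((k : ℝ) + 15) + 1) + 1) ^ (k + 13)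
        ≤ (Real.exp (100 / (100 * ((k : ℝ) + 15) + 1))) ^ (k + 13) :=
          pow_le_pow_left₀ (by positivity) h3 _
      _ = Real.exp (((k + 13 : ℕ) : ℝ) * (100 / (100 * ((k : ℝ) + 15) + 1))) := by
          rw [Real.exp_nat_mul]
      _ ≤ Real.exp 1 := by
          rw [Real.exp_le_exp]
          push_cast
          rw [← mul_div_assoc, div_le_one hc]
          linarith
      _ ≤ 3 := by
          have := Real.exp_one_lt_d9
          linarith
  rw [div_pow, div_le_iff₀ (by positivity)] at h2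
  have h4 : (100 : ℝ) * (100 * (k + 16) + 1) ^ (k + 13) ≤
      (100 * (k + 16) + 1) * (100 * (k + 15) + 1) ^ (k + 13) := by
    have h5 : (0 : ℝ) ≤ (100 * ((k : ℝ) + 15) + 1) ^ (k + 13) := by positivity
    calc (100 : ℝ) * (100 * (k + 16) + 1) ^ (k + 13)
        ≤ 100 * (3 * (100 * (k + 15) + 1) ^ (k + 13)) :=
          mul_le_mul_of_nonneg_left h2 (by norm_num)
      _ = 300 * (100 * (k + 15) + 1) ^ (k + 13) := by ring
      _ ≤ (100 * (k + 16) + 1) * (100 * (k + 15) + 1) ^ (k + 13) :=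
          mul_le_mul_of_nonneg_right (by linarith) h5
  exact_mod_cast h4

theorem big (k D : ℕ)
    (hD : ∀ E : ℕ, 2 * (E + 1) * (k + 15) < 2 * (E + 1) + 2 * 3 ^ E + 3 * D) :
    ((100 * (k + 16) + 1) * (100 * (k + 15) + 1) ^ (k + 13) -
        100 * (100 * (k + 16) + 1) ^ (k + 13)) ^ D * (100 * (k + 16) + 1) ≤
      100 * ((100 * (k + 16) + 1) * (100 * (k + 15) + 1) ^ (k + 13)) ^ D := by
  have hk : (0 : ℝ) ≤ k := Nat.cast_nonneg k
  -- the exponent
  obtain ⟨E, hE1, hE2, hE3⟩ : ∃ E : ℕ, 2 * 3 ^ E ≤ 3 * (k + 14) ∧ k + 14 < 2 * 3 ^ E ∧ 2 ≤ E := by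
    refine ⟨Nat.log 3 (3 * (k + 14) / 2), ?_, ?_, ?_⟩
    · have h := Nat.pow_log_le_self 3 (x := 3 * (k + 14) / 2) (by omega)
      omega
    · have h := Nat.lt_pow_succ_log_self (b := 3) (by norm_num) (3 * (k + 14) / 2)
      rw [pow_succ] at h
      omega
    · by_contra hcon
      have h := Nat.lt_pow_succ_log_self (b := 3) (by norm_num) (3 * (k + 14) / 2)
      have h5 : 3 ^ (Nat.log 3 (3 * (k + 14) / 2)).succ ≤ 3 ^ 2 :=
        Nat.pow_le_pow_right (by norm_num) (by omega)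
      norm_num at h5
      omega
  set A : ℝ := 100 * ((k : ℝ) + 16) + 1 with hA
  set B : ℝ := 100 * ((k : ℝ) + 15) + 1 with hB
  have hA0 : 0 < A := by positivity
  have hB0 : 0 < B := by positivity
  set x : ℝ := 100 / A with hx
  have hx0 : 0 < x := by positivity
  set ρ : ℝ := x * (A / B) ^ (k + 13) with hρ
  have hBA : B / A = 1 - x := by
    rw [hx, hA, hB]
    field_simp
    ring
  -- lower bound for ρ
  have h1 : x * 2.25 ≤ ρ := by
    refine mul_le_mul_of_nonneg_left ?_ hx0.le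
    have h2 : Real.exp (((k + 13 : ℕ) : ℝ) * x) ≤ (A / B) ^ (k + 13) := by
      rw [Real.exp_nat_mul]
      refine pow_le_pow_left₀ (Real.exp_pos _).le ?_ _
      have h3 := Real.add_one_le_exp (-x)
      have h4 : B / A ≤ Real.exp (-x) := by rw [hBA]; linarith
      rw [Real.exp_neg] at h4
      have h5 : A / B = (B / A)⁻¹ := by rw [inv_div]
      rw [h5, le_inv_comm₀ (Real.exp_pos _) (by positivity)]
      exact h4
    refine le_trans (exp_ge _ ?_) h2
    push_cast
    rw [hx, ← mul_div_assoc, le_div_iff₀ hA0, hA]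
    nlinarith
  have hρ0 : 0 < ρ := lt_of_lt_of_le (by positivity) h1
  -- the main inequality
  have hmain : -Real.log x ≤ ρ * D := by
    have hDE : 2 * ((E : ℝ) + 1) * (k + 14) - 2 * 3 ^ E ≤ 3 * D := by
      have h := hD E
      have h' : ((2 * (E + 1) * (k + 15) : ℕ) : ℝ) ≤
          ((2 * (E + 1) + 2 * 3 ^ E + 3 * D : ℕ) : ℝ) := by exact_mod_cast h.le
      push_cast at h'
      nlinarith
    set u : ℝ := 3 ^ E / ((k : ℝ) + 14) with hu
    have hk14 : (0 : ℝ) < (k : ℝ) + 14 := by positivity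
    have hu1 : 1 / 2 ≤ u := by
      rw [hu, le_div_iff₀ hk14]
      have h' : ((k + 14 : ℕ) : ℝ) ≤ ((2 * 3 ^ E : ℕ) : ℝ) := by exact_mod_cast hE2.le
      push_cast at h'
      linarith
    have hu2 : u ≤ 3 / 2 := by
      rw [hu, div_le_iff₀ hk14]
      have h' : ((2 * 3 ^ E : ℕ) : ℝ) ≤ ((3 * (k + 14) : ℕ) : ℝ) := by exact_mod_cast hE1
      push_cast at h'
      linarith
    have hE' : (2 : ℝ) ≤ E := by exact_mod_cast hE3
    have h3E : (3 : ℝ) ^ E = u * ((k : ℝ) + 14) := by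
      rw [hu, div_mul_cancel₀ _ hk14.ne']
    -- log (1/x)
    have hlog : -Real.log x ≤ 0.1436 + (E * Real.log 3 - Real.log u) := by
      have h4 : -Real.log x = Real.log (A / (100 * ((k : ℝ) + 14))) + Real.log ((k : ℝ) + 14) := by
        rw [← Real.log_mul (by positivity) hk14.ne', ← Real.log_inv, hx]
        congr 1
        field_simp
      have h5 : Real.log (A / (100 * ((k : ℝ) + 14))) ≤ 0.1436 := by
        refine (Real.log_le_sub_one_of_pos (by positivity)).trans ?_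
        rw [sub_le_iff_le_add, div_le_iff₀ (by positivity), hA]
        nlinarith
      have h6 : Real.log ((k : ℝ) + 14) = E * Real.log 3 - Real.log u := by
        have h7 : (k : ℝ) + 14 = 3 ^ E / u := by
          rw [h3E]
          field_simp
        rw [h7, Real.log_div (by positivity) (by positivity), Real.log_pow]
      rw [h4, h6]
      linarith
    have hch := log_chord u hu1 hu2
    have hl2 := Real.log_two_lt_d9
    have hl3 := log_three_le
    have h8 : -Real.log x ≤ 0.1436 + 0.6932 + ((E : ℝ) - u + 1 / 2) * 1.1 := by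
      have h9 : ((E : ℝ) - u + 1 / 2) * Real.log 3 ≤ ((E : ℝ) - u + 1 / 2) * 1.1 :=
        mul_le_mul_of_nonneg_left hl3 (by linarith)
      nlinarith [h9, hch, hlog, hl2]
    refine h8.trans ?_
    -- lower bound for ρ D
    have hDnn : (0 : ℝ) ≤ D := Nat.cast_nonneg D
    have h10 : x * 2.25 * D ≤ ρ * D := mul_le_mul_of_nonneg_right h1 hDnn
    refine le_trans ?_ h10
    have h11 : (0.8744 : ℝ) ≤ x * ((k : ℝ) + 14) := by
      rw [hx, div_mul_eq_mul_div, le_div_iff₀ hA0, hA]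
      nlinarith
    have h12 : (2 / 3 : ℝ) * ((k : ℝ) + 14) * ((E : ℝ) + 1 - u) ≤ D := by
      rw [h3E] at hDE
      nlinarith
    have h13 : x * 2.25 * ((2 / 3 : ℝ) * ((k : ℝ) + 14) * ((E : ℝ) + 1 - u)) ≤ x * 2.25 * D :=
      mul_le_mul_of_nonneg_left h12 (by positivity)
    refine le_trans ?_ h13
    have h14 : x * 2.25 * ((2 / 3 : ℝ) * ((k : ℝ) + 14) * ((E : ℝ) + 1 - u)) =
        1.5 * (x * ((k : ℝ) + 14)) * ((E : ℝ) + 1 - u) := by ring
    rw [h14]
    have h15 : 1.5 * 0.8744 * ((E : ℝ) + 1 - u) ≤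
        1.5 * (x * ((k : ℝ) + 14)) * ((E : ℝ) + 1 - u) :=
      mul_le_mul_of_nonneg_right (by linarith) (by linarith)
    refine le_trans ?_ h15
    linarith
  -- ρ ≤ 1
  have hw := big_w k
  have hρb : ρ = (100 * A ^ (k + 13)) / (A * B ^ (k + 13)) := by
    rw [hρ, hx, div_pow]
    field_simp
  have hw' : 100 * A ^ (k + 13) ≤ A * B ^ (k + 13) := by
    rw [hA, hB]
    exact_mod_cast hw
  have hAB : 0 < A * B ^ (k + 13) := by positivity
  have hρ1 : ρ ≤ 1 := by
    rw [hρb, div_le_one hAB]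
    exact hw'
  have hfin : (1 - ρ) ^ D ≤ x := by
    have h16 := Real.add_one_le_exp (-ρ)
    calc (1 - ρ) ^ D ≤ (Real.exp (-ρ)) ^ D :=
          pow_le_pow_left₀ (by linarith) (by linarith) _
      _ = Real.exp ((D : ℝ) * (-ρ)) := (Real.exp_nat_mul _ _).symm
      _ ≤ Real.exp (Real.log x) := by
          rw [Real.exp_le_exp]
          linarith
      _ = x := Real.exp_log hx0
  have h17 : (A * B ^ (k + 13) - 100 * A ^ (k + 13)) ^ D * A ≤ 100 * (A * B ^ (k + 13)) ^ D := by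
    have h18 : A * B ^ (k + 13) - 100 * A ^ (k + 13) = (1 - ρ) * (A * B ^ (k + 13)) := by
      rw [hρb]
      field_simp
    rw [h18, mul_pow]
    calc (1 - ρ) ^ D * (A * B ^ (k + 13)) ^ D * A
        ≤ x * (A * B ^ (k + 13)) ^ D * A := by
          refine mul_le_mul_of_nonneg_right (mul_le_mul_of_nonneg_right hfin ?_) hA0.le
          positivity
      _ = 100 * (A * B ^ (k + 13)) ^ D := by
          rw [hx]
          field_simp
  have h19 : (((100 * (k + 16) + 1) * (100 * (k + 15) + 1) ^ (k + 13) -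
        100 * (100 * (k + 16) + 1) ^ (k + 13) : ℕ) : ℝ) =
      A * B ^ (k + 13) - 100 * A ^ (k + 13) := by
    rw [Nat.cast_sub hw]
    push_cast
    rfl
  have h20 : ((((100 * (k + 16) + 1) * (100 * (k + 15) + 1) ^ (k + 13) -
        100 * (100 * (k + 16) + 1) ^ (k + 13)) ^ D * (100 * (k + 16) + 1) : ℕ) : ℝ) ≤
      ((100 * ((100 * (k + 16) + 1) * (100 * (k + 15) + 1) ^ (k + 13)) ^ D : ℕ) : ℝ) := by
    rw [Nat.cast_mul, Nat.cast_pow, h19]
    push_cast
    exact h17
  exact_mod_cast h20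

end Pool.Agent.Lib.MP_1818ed_co.C4
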