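import Mathlib
import Pool.Agent.Lib.MP_1818ed_co.Defs

/-!
# Clique blow-ups of C4-free graphs (MP_1818ed_co): definitions

THEOREM C4 (note 4295). For every finite graph `G` in which two distinct vertices have at most one
common neighbour there is `s₀` such that `χ(G[K_s]) ≤ HG(G[K_s])` for all `s ≥ s₀`.
-/

set_option autoImplicit false

namespace Pool.Agent.Lib.MP_1818ed_co.C4

open Finset

/-- the clique blow-up `G[K_s]` -/
def blow {V : Type} (G : SimpleGraph V) (s : ℕ) : SimpleGraph (V × Fin s) where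
  Adj x y := G.Adj x.1 y.1 ∨ (x.1 = y.1 ∧ x.2 ≠ y.2)
  symm := ⟨by
    rintro x y (h | ⟨h, h'⟩)
    · exact Or.inl h.symm
    · exact Or.inr ⟨h.symm, h'.symm⟩⟩
  loopless := ⟨by
    rintro x (h | ⟨_, h⟩)
    · exact G.irrefl h
    · exact h rfl⟩

/-- the game with colour set `C` and `s` guesses per vertex is won on `G` -/
def GWin {V : Type} (G : SimpleGraph V) (C : Type) (s : ℕ) : Prop :=
  ∃ F : V → (V → C) → Finset C,
    (∀ (v : V) (c c' : V → C), (∀ u : V, G.Adj v u → c u = c' u) → F v c = F v c') ∧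
    (∀ (v : V) (c : V → C), (F v c).card ≤ s) ∧
    ∀ c : V → C, ∃ v : V, c v ∈ F v c

/-- a `b`-fold colouring of `S` with `a` colours -/
def FCol {V : Type} (G : SimpleGraph V) (S : Finset V) (a b : ℕ) : Prop :=
  ∃ L : V → Finset (Fin a), (∀ v ∈ S, (L v).card = b) ∧
    ∀ u ∈ S, ∀ v ∈ S, G.Adj u v → Disjoint (L u) (L v)

/-- two distinct vertices have at most one common neighbour -/
def NoC4 {V : Type} (G : SimpleGraph V) : Prop :=
  ∀ u v x y : V, u ≠ v → G.Adj u x → G.Adj v x → G.Adj u y → G.Adj v y → x = y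

end Pool.Agent.Lib.MP_1818ed_co.C4
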