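import Mathlib
import Pool.Agent.Lib.MP_1818ed_co.C4.Defs

/-! `b`-fold colourings: clique blow-ups, critical subsets. -/

set_option autoImplicit false

namespace Pool.Agent.Lib.MP_1818ed_co.C4

open Finset

theorem col_blow {V : Type} [Fintype V] (G : SimpleGraph V) (a b m s : ℕ)
    (h : FCol G univ a b) (hs : s ≤ m * b) : (blow G s).Colorable (m * a) := by
  classical
  obtain ⟨L, hL, hd⟩ := h
  have hcol : (blow G s).Coloring (Fin m × Fin a) := SimpleGraph.Coloring.mk
    (fun x => (⟨x.2.1 / b, by
        have h1 := x.2.2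
        rw [Nat.div_lt_iff_lt_mul (by
          rcases Nat.eq_zero_or_pos b with h | h
          · subst h; omega
          · exact h)]
        omega⟩,
      (L x.1).orderEmbOfFin (hL x.1 (Finset.mem_univ _)) ⟨x.2.1 % b, Nat.mod_lt _ (by
          have h1 := x.2.2
          rcases Nat.eq_zero_or_pos b with h | h
          · subst h; omega
          · exact h)⟩)) (by
    rintro ⟨v, i⟩ ⟨w, j⟩ (h | ⟨h, h'⟩) heq
    · simp only [Prod.mk.injEq] at heq
      have h1 := hd v (Finset.mem_univ _) w (Finset.mem_univ _) h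
      rw [Finset.disjoint_left] at h1
      have h2 := heq.2 ▸ Finset.orderEmbOfFin_mem (L v) (hL v (Finset.mem_univ _))
        ⟨i.1 % b, Nat.mod_lt _ (by
          have h1 := i.2
          rcases Nat.eq_zero_or_pos b with h | h
          · subst h; omega
          · exact h)⟩
      exact h1 h2 (Finset.orderEmbOfFin_mem (L w) (hL w (Finset.mem_univ _)) _)
    · simp only at h h'
      subst h
      simp only [Prod.mk.injEq, Fin.mk.injEq, EmbeddingLike.apply_eq_iff_eq] at heq
      apply h'
      apply Fin.ext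
      rw [← Nat.div_add_mod i.1 b, ← Nat.div_add_mod j.1 b, heq.1, heq.2])
  have := hcol.colorable
  simpa using this

/-- extending a `b`-fold colouring to a vertex of small degree -/
theorem fcol_extend {V : Type} [DecidableEq V] (G : SimpleGraph V) [DecidableRel G.Adj]
    (S : Finset V) (M b : ℕ) (v : V)
    (h : FCol G (S.erase v) (M * b) b) (hdeg : (S.filter (fun u => G.Adj v u)).card < M) :
    FCol G S (M * b) b := by
  obtain ⟨L, hL, hd⟩ := h
  set U : Finset (Fin (M * b)) := (S.filter (fun u => G.Adj v u)).biUnion L with hU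
  have hUc : U.card ≤ (S.filter (fun u => G.Adj v u)).card * b := by
    refine Finset.card_biUnion_le_card_mul _ _ _ (fun u hu => ?_)
    rw [Finset.mem_filter] at hu
    exact (hL u (Finset.mem_erase.2 ⟨fun h => G.irrefl (h ▸ hu.2), hu.1⟩)).le
  have hc : b ≤ (Uᶜ).card := by
    rw [Finset.card_compl, Fintype.card_fin]
    have h1 : (S.filter (fun u => G.Adj v u)).card * b + b ≤ M * b := by
      calc (S.filter (fun u => G.Adj v u)).card * b + b
          = ((S.filter (fun u => G.Adj v u)).card + 1) * b := by ring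
        _ ≤ M * b := Nat.mul_le_mul_right _ hdeg
    omega
  obtain ⟨T, hT, hTc⟩ := Finset.exists_subset_card_eq hc
  have hTL : ∀ u ∈ S, G.Adj v u → Disjoint T (L u) := by
    intro u hu hvu
    rw [Finset.disjoint_left]
    intro x hx hx'
    have := hT hx
    rw [Finset.mem_compl] at this
    exact this (Finset.mem_biUnion.2 ⟨u, Finset.mem_filter.2 ⟨hu, hvu⟩, hx'⟩)
  refine ⟨fun u => if u = v then T else L u, ?_, ?_⟩
  · intro u hu
    by_cases h : u = v
    · simp only [if_pos h, hTc]
    · simp only [if_neg h]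
      exact hL u (Finset.mem_erase.2 ⟨h, hu⟩)
  · intro u hu w hw huw
    by_cases h : u = v
    · have h' : w ≠ v := fun h' => G.irrefl (show G.Adj v v by rw [h, h'] at huw; exact huw)
      simp only [if_pos h, if_neg h']
      exact hTL w hw (h ▸ huw)
    · by_cases h' : w = v
      · simp only [if_neg h, if_pos h']
        exact (hTL u hu (h' ▸ huw.symm)).symm
      · simp only [if_neg h, if_neg h']
        exact hd u (Finset.mem_erase.2 ⟨h, hu⟩) w (Finset.mem_erase.2 ⟨h', hw⟩) huw

/-- critical subsets for the fractional chromatic number -/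
theorem crit_frac {V : Type} [Fintype V] [DecidableEq V] (G : SimpleGraph V)
    [DecidableRel G.Adj] (M : ℕ) (h : ¬ ∃ b, 0 < b ∧ FCol G univ (M * b) b) :
    ∃ S : Finset V, S.Nonempty ∧ (¬ ∃ b, 0 < b ∧ FCol G S (M * b) b) ∧
      ∀ v ∈ S, M ≤ (S.filter (fun u => G.Adj v u)).card := by
  obtain ⟨S, hS, hmin⟩ := (wellFounded_lt (α := Finset V)).has_min
    {S | ¬ ∃ b, 0 < b ∧ FCol G S (M * b) b} ⟨univ, h⟩
  refine ⟨S, ?_, hS, ?_⟩
  · rw [Finset.nonempty_iff_ne_empty]
    rintro rfl
    exact hS ⟨1, one_pos, fun _ => ∅, by simp, by simp⟩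
  · intro v hv
    by_contra hlt
    push Not at hlt
    have h1 := hmin (S.erase v)
    have h2 : ∃ b, 0 < b ∧ FCol G (S.erase v) (M * b) b := by
      by_contra h3
      exact h1 h3 (Finset.erase_ssubset hv)
    obtain ⟨b, hb, hb'⟩ := h2
    exact hS ⟨b, hb, fcol_extend G S M b v hb' hlt⟩

theorem fcol_one {V : Type} [Fintype V] (G : SimpleGraph V) (M : ℕ)
    (h : FCol G univ M 1) : G.Colorable M := by
  classical
  obtain ⟨L, hL, hd⟩ := h
  have hL' : ∀ v, ∃ x, L v = {x} := fun v => Finset.card_eq_one.1 (hL v (Finset.mem_univ _))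
  choose g hg using hL'
  have hcol : G.Coloring (Fin M) := SimpleGraph.Coloring.mk g (by
    intro v w hvw heq
    have h1 := hd v (Finset.mem_univ _) w (Finset.mem_univ _) hvw
    rw [hg v, hg w, heq] at h1
    simp at h1)
  have := hcol.colorable
  simpa using this

/-- critical subsets for the chromatic number -/
theorem crit_chi {V : Type} [Fintype V] [DecidableEq V] (G : SimpleGraph V)
    [DecidableRel G.Adj] (M : ℕ) (h : ¬ G.Colorable M) :
    ∃ S : Finset V, S.Nonempty ∧ ∀ v ∈ S, M ≤ (S.filter (fun u => G.Adj v u)).card := by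
  have h0 : ¬ FCol G univ (M * 1) 1 := by
    intro h1
    rw [mul_one] at h1
    exact h (fcol_one G M h1)
  obtain ⟨S, hS, hmin⟩ := (wellFounded_lt (α := Finset V)).has_min
    {S | ¬ FCol G S (M * 1) 1} ⟨univ, h0⟩
  refine ⟨S, ?_, ?_⟩
  · rw [Finset.nonempty_iff_ne_empty]
    rintro rfl
    exact hS ⟨fun _ => ∅, by simp, by simp⟩
  · intro v hv
    by_contra hlt
    push Not at hlt
    have h1 := hmin (S.erase v)
    have h2 : FCol G (S.erase v) (M * 1) 1 := by
      by_contra h3
      exact h1 h3 (Finset.erase_ssubset hv)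
    exact hS (fcol_extend G S M 1 v h2 hlt)

/-- a proper colouring is a `b`-fold colouring for `b = 1` -/
theorem fcol_of_colorable {V : Type} [Fintype V] (G : SimpleGraph V) (M : ℕ)
    (h : G.Colorable M) : FCol G univ (M * 1) 1 := by
  obtain ⟨g⟩ := h
  rw [mul_one]
  refine ⟨fun v => {g v}, fun v _ => Finset.card_singleton _, ?_⟩
  intro u _ v _ huv
  rw [Finset.disjoint_singleton]
  exact g.valid huv

end Pool.Agent.Lib.MP_1818ed_co.C4
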