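import Mathlib
import Pool.Agent.Lib.MP_1818ed_co.C4.Defs

/-! Independent sets: splitting at a vertex, matchings. -/

set_option autoImplicit false

namespace Pool.Agent.Lib.MP_1818ed_co.C4

open Finset

/-- the independent subsets of `S` -/
def ind {V : Type} [DecidableEq V] (G : SimpleGraph V) [DecidableRel G.Adj] (S : Finset V) :
    Finset (Finset V) :=
  S.powerset.filter (fun A => ∀ u ∈ A, ∀ v ∈ A, ¬ G.Adj u v)

section
variable {V : Type} [DecidableEq V] (G : SimpleGraph V) [DecidableRel G.Adj]

theorem mem_ind (S A : Finset V) :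
    A ∈ ind G S ↔ A ⊆ S ∧ ∀ u ∈ A, ∀ v ∈ A, ¬ G.Adj u v := by
  rw [ind, Finset.mem_filter, Finset.mem_powerset]

theorem ind_mono (S T : Finset V) (h : S ⊆ T) : ind G S ⊆ ind G T := by
  intro A hA
  rw [mem_ind] at hA ⊢
  exact ⟨hA.1.trans h, hA.2⟩

/-- splitting at a vertex -/
theorem ind_split {M : Type} [AddCommMonoid M] (F : Finset V) (u : V) (hu : u ∈ F)
    (φ : Finset V → M) :
    ∑ A ∈ ind G F, φ A = ∑ A ∈ ind G (F.erase u), φ A +
      ∑ A ∈ ind G ((F.erase u).filter (fun x => ¬ G.Adj u x)), φ (insert u A) := by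
  rw [← Finset.sum_filter_add_sum_filter_not (ind G F) (fun A => u ∉ A) φ]
  congr 1
  · refine Finset.sum_congr ?_ (fun _ _ => rfl)
    ext A
    rw [Finset.mem_filter, mem_ind, mem_ind, Finset.subset_erase]
    tauto
  · refine Finset.sum_nbij' (fun A => A.erase u) (fun A => insert u A) ?_ ?_ ?_ ?_ ?_
    · intro A hA
      rw [Finset.mem_filter, mem_ind, not_not] at hA
      obtain ⟨⟨h1, h2⟩, h3⟩ := hA
      rw [mem_ind]
      refine ⟨?_, ?_⟩
      · intro x hx
        have hx' := Finset.mem_erase.1 hx
        rw [Finset.mem_filter, Finset.mem_erase]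
        exact ⟨⟨hx'.1, h1 hx'.2⟩, h2 u h3 x hx'.2⟩
      · intro x hx y hy
        exact h2 x (Finset.mem_of_mem_erase hx) y (Finset.mem_of_mem_erase hy)
    · intro A hA
      rw [mem_ind] at hA
      obtain ⟨h1, h2⟩ := hA
      rw [Finset.mem_filter, mem_ind, not_not]
      refine ⟨⟨?_, ?_⟩, Finset.mem_insert_self _ _⟩
      · intro x hx
        rcases Finset.mem_insert.1 hx with rfl | hx
        · exact hu
        · exact Finset.mem_of_mem_erase (Finset.mem_filter.1 (h1 hx)).1
      · intro x hx y hy
        rcases Finset.mem_insert.1 hx with hx | hx <;> rcases Finset.mem_insert.1 hy with hy | hy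
        · rw [hx, hy]; exact G.irrefl
        · rw [hx]; exact (Finset.mem_filter.1 (h1 hy)).2
        · rw [hy]; exact fun h => (Finset.mem_filter.1 (h1 hx)).2 h.symm
        · exact h2 x hx y hy
    · intro A hA
      rw [Finset.mem_filter, not_not] at hA
      exact Finset.insert_erase hA.2
    · intro A hA
      rw [mem_ind] at hA
      refine Finset.erase_insert ?_
      intro h
      exact (Finset.mem_erase.1 (Finset.mem_filter.1 (hA.1 h)).1).1 rfl
    · intro A hA
      rw [Finset.mem_filter, not_not] at hA
      rw [Finset.insert_erase hA.2]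

theorem card_ind_split (F : Finset V) (u : V) (hu : u ∈ F) :
    (ind G F).card = (ind G (F.erase u)).card +
      (ind G ((F.erase u).filter (fun x => ¬ G.Adj u x))).card := by
  have := ind_split G F u hu (fun _ => (1 : ℕ))
  simpa using this

theorem sum_ind_split (F : Finset V) (u : V) (hu : u ∈ F) :
    ∑ A ∈ ind G F, A.card = ∑ A ∈ ind G (F.erase u), A.card +
      (∑ A ∈ ind G ((F.erase u).filter (fun x => ¬ G.Adj u x)), A.card +
        (ind G ((F.erase u).filter (fun x => ¬ G.Adj u x))).card) := by
  rw [ind_split G F u hu]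
  congr 1
  rw [Finset.card_eq_sum_ones, ← Finset.sum_add_distrib]
  refine Finset.sum_congr rfl fun A hA => ?_
  rw [mem_ind] at hA
  rw [Finset.card_insert_of_notMem]
  intro h
  exact (Finset.mem_erase.1 (Finset.mem_filter.1 (hA.1 h)).1).1 rfl

/-- the independent sets of a matching plus isolated vertices -/
theorem matching (n : ℕ) : ∀ F : Finset V, F.card = n →
    (∀ u ∈ F, (F.filter (fun x => G.Adj u x)).card ≤ 1) →
    ∃ e f : ℕ, (ind G F).card = 3 ^ e * 2 ^ f ∧
      6 * ∑ A ∈ ind G F, A.card = (ind G F).card * (4 * e + 3 * f) := by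
  induction n using Nat.strong_induction_on with
  | _ n ih =>
    intro F hF hdeg
    rcases F.eq_empty_or_nonempty with rfl | ⟨u, hu⟩
    · refine ⟨0, 0, ?_, ?_⟩
      · have : ind G (∅ : Finset V) = {∅} := by
          ext A
          rw [mem_ind, Finset.subset_empty, Finset.mem_singleton]
          constructor
          · exact fun h => h.1
          · rintro rfl
            simp
        rw [this]
        simp
      · have : ind G (∅ : Finset V) = {∅} := by
          ext A
          rw [mem_ind, Finset.subset_empty, Finset.mem_singleton]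
          constructor
          · exact fun h => h.1
          · rintro rfl
            simp
        rw [this]
        simp
    · have hsub : ∀ F' : Finset V, F' ⊆ F → ∀ x ∈ F',
          (F'.filter (fun y => G.Adj x y)).card ≤ 1 := fun F' hF' x hx =>
        (Finset.card_le_card (Finset.filter_subset_filter _ hF')).trans (hdeg x (hF' hx))
      rcases (F.filter (fun x => G.Adj u x)).eq_empty_or_nonempty with hN | ⟨w, hw⟩
      · have h1 : (F.erase u).filter (fun x => ¬ G.Adj u x) = F.erase u := by
          refine Finset.filter_true_of_mem fun x hx h => ?_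
          have : x ∈ F.filter (fun x => G.Adj u x) :=
            Finset.mem_filter.2 ⟨Finset.mem_of_mem_erase hx, h⟩
          rw [hN] at this
          simp at this
        have hc : (F.erase u).card < n := by
          rw [Finset.card_erase_of_mem hu, hF]
          have : 0 < F.card := Finset.card_pos.2 ⟨u, hu⟩
          omega
        obtain ⟨e, f, h2, h3⟩ := ih _ hc (F.erase u) rfl (hsub _ (Finset.erase_subset _ _))
        refine ⟨e, f + 1, ?_, ?_⟩
        · rw [card_ind_split G F u hu, h1, h2]
          ring
        · rw [sum_ind_split G F u hu, card_ind_split G F u hu, h1]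
          have h4 : 6 * (∑ A ∈ ind G (F.erase u), A.card +
              (∑ A ∈ ind G (F.erase u), A.card + (ind G (F.erase u)).card)) =
              2 * (6 * ∑ A ∈ ind G (F.erase u), A.card) + 6 * (ind G (F.erase u)).card := by ring
          rw [h4, h3]
          ring
      · have hwF := Finset.mem_filter.1 hw
        have hwu : w ≠ u := fun h => G.irrefl (h ▸ hwF.2)
        have hne : Nonempty V := ⟨u⟩
        have hN : F.filter (fun x => G.Adj u x) = {w} :=
          (Finset.card_le_one_iff_subset_singleton.1 (hdeg u hu)).elim fun a ha => by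
            have h5 : w = a := by simpa using ha hw
            subst h5
            exact Finset.Subset.antisymm ha (Finset.singleton_subset_iff.2 hw)
        have hNw : F.filter (fun x => G.Adj w x) = {u} := by
          have h6 : u ∈ F.filter (fun x => G.Adj w x) := Finset.mem_filter.2 ⟨hu, hwF.2.symm⟩
          exact (Finset.card_le_one_iff_subset_singleton.1 (hdeg w hwF.1)).elim fun a ha => by
            have h5 : u = a := by simpa using ha h6
            subst h5
            exact Finset.Subset.antisymm ha (Finset.singleton_subset_iff.2 h6)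
        have h1 : (F.erase u).filter (fun x => ¬ G.Adj u x) = (F.erase u).erase w := by
          ext x
          rw [Finset.mem_filter, Finset.mem_erase, Finset.mem_erase, Finset.mem_erase]
          constructor
          · rintro ⟨⟨h7, h8⟩, h9⟩
            exact ⟨fun h => h9 (h ▸ hwF.2), h7, h8⟩
          · rintro ⟨h7, h8, h9⟩
            refine ⟨⟨h8, h9⟩, fun h => h7 ?_⟩
            have : x ∈ F.filter (fun x => G.Adj u x) := Finset.mem_filter.2 ⟨h9, h⟩
            rw [hN] at this
            simpa using this
        have hw' : w ∈ F.erase u := Finset.mem_erase.2 ⟨hwu, hwF.1⟩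
        have h2 : ((F.erase u).erase w).filter (fun x => ¬ G.Adj w x) = (F.erase u).erase w := by
          refine Finset.filter_true_of_mem fun x hx h => ?_
          have hx1 := Finset.mem_erase.1 hx
          have hx2 := Finset.mem_erase.1 hx1.2
          have : x ∈ F.filter (fun x => G.Adj w x) := Finset.mem_filter.2 ⟨hx2.2, h⟩
          rw [hNw] at this
          exact hx2.1 (by simpa using this)
        have hc : ((F.erase u).erase w).card < n := by
          rw [Finset.card_erase_of_mem hw', Finset.card_erase_of_mem hu, hF]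
          have : 0 < F.card := Finset.card_pos.2 ⟨u, hu⟩
          omega
        obtain ⟨e, f, h3, h4⟩ := ih _ hc ((F.erase u).erase w) rfl
          (hsub _ ((Finset.erase_subset _ _).trans (Finset.erase_subset _ _)))
        have hi : (ind G F).card = 3 * (ind G ((F.erase u).erase w)).card := by
          rw [card_ind_split G F u hu, h1, card_ind_split G (F.erase u) w hw', h2]
          ring
        refine ⟨e + 1, f, ?_, ?_⟩
        · rw [hi, h3]
          ring
        · rw [hi, sum_ind_split G F u hu, h1, sum_ind_split G (F.erase u) w hw', h2]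
          have h5 : 6 * (∑ A ∈ ind G ((F.erase u).erase w), A.card +
              (∑ A ∈ ind G ((F.erase u).erase w), A.card +
                (ind G ((F.erase u).erase w)).card) +
              (∑ A ∈ ind G ((F.erase u).erase w), A.card +
                (ind G ((F.erase u).erase w)).card)) =
              3 * (6 * ∑ A ∈ ind G ((F.erase u).erase w), A.card) +
                12 * (ind G ((F.erase u).erase w)).card := by ring
          rw [h5, h4]
          ring

end

/-- the arithmetic behind the choice of the parameters -/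
theorem ar2 (j : ℕ) : ∀ f : ℕ, 4 * (j + 1) * 2 ^ f ≤ 4 * 3 ^ j + 3 * f * 2 ^ f := by
  induction j using Nat.strong_induction_on with
  | _ j ih =>
    intro f
    have hb : ∀ i : ℕ, 4 * (i + 1) ≤ 4 * 3 ^ i ∧ 8 * (i + 1) ≤ 4 * 3 ^ i + 6 ∧
        16 * (i + 1) ≤ 4 * 3 ^ i + 24 ∧ 32 * (i + 1) ≤ 4 * 3 ^ i + 72 := by
      intro i
      induction i with
      | zero => norm_num
      | succ i ih =>
        have h3 : 3 ^ (i + 1) = 3 * 3 ^ i := by ring
        rw [h3]
        rcases Nat.lt_or_ge i 3 with h | h
        · interval_cases i <;> norm_num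
        · have h4 : 27 ≤ 3 ^ i := by
            calc 27 = 3 ^ 3 := by norm_num
              _ ≤ 3 ^ i := Nat.pow_le_pow_right (by norm_num) h
          omega
    rcases Nat.lt_or_ge f 4 with hf | hf
    · obtain ⟨h1, h2, h3, h4⟩ := hb j
      interval_cases f
      · simpa using h1
      · norm_num; omega
      · norm_num; omega
      · norm_num; omega
    · rcases Nat.lt_or_ge j 3 with hj | hj
      · have h5 : 4 * (j + 1) ≤ 3 * f := by omega
        calc 4 * (j + 1) * 2 ^ f ≤ 3 * f * 2 ^ f := Nat.mul_le_mul_right _ h5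
          _ ≤ _ := Nat.le_add_left _ _
      · obtain ⟨j', rfl⟩ : ∃ j', j = j' + 3 := ⟨j - 3, by omega⟩
        obtain ⟨f', rfl⟩ : ∃ f', f = f' + 4 := ⟨f - 4, by omega⟩
        have h6 := ih j' (by omega) f'
        have h7 : 2 ^ (f' + 4) = 16 * 2 ^ f' := by ring
        have h8 : 3 ^ (j' + 3) = 27 * 3 ^ j' := by ring
        rw [h7, h8]
        nlinarith [h6, Nat.zero_le (3 ^ j')]

theorem ar (E e f : ℕ) :
    4 * (E + 1) * (3 ^ e * 2 ^ f) ≤ 4 * 3 ^ E + 3 ^ e * 2 ^ f * (4 * e + 3 * f) := by
  rcases Nat.lt_or_ge E e with h | h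
  · have h1 : 4 * (E + 1) ≤ 4 * e + 3 * f := by omega
    calc 4 * (E + 1) * (3 ^ e * 2 ^ f) ≤ (4 * e + 3 * f) * (3 ^ e * 2 ^ f) :=
          Nat.mul_le_mul_right _ h1
      _ = 3 ^ e * 2 ^ f * (4 * e + 3 * f) := by ring
      _ ≤ _ := Nat.le_add_left _ _
  · obtain ⟨j, rfl⟩ : ∃ j, E = e + j := ⟨E - e, by omega⟩
    have h2 := ar2 j f
    have h3 : 4 * (e + j + 1) * (3 ^ e * 2 ^ f) =
        3 ^ e * (4 * (j + 1) * 2 ^ f) + 3 ^ e * 2 ^ f * (4 * e) := by ring
    have h4 : 4 * 3 ^ (e + j) + 3 ^ e * 2 ^ f * (4 * e + 3 * f) =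
        3 ^ e * (4 * 3 ^ j + 3 * f * 2 ^ f) + 3 ^ e * 2 ^ f * (4 * e) := by
      rw [pow_add]; ring
    rw [h3, h4]
    exact Nat.add_le_add_right (Nat.mul_le_mul_left _ h2) _

end Pool.Agent.Lib.MP_1818ed_co.C4
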