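import Mathlib
import Pool.Agent.Lib.MP_1818ed_co.C4.Ind

/-! The greedy fractional colouring. -/

set_option autoImplicit false

namespace Pool.Agent.Lib.MP_1818ed_co.C4

open Finset

section
variable {V : Type} [DecidableEq V] (G : SimpleGraph V) [DecidableRel G.Adj]

theorem greedy (X Y Z : ℚ) (n : ℕ) :
    ∀ S : Finset V, S.card = n →
    (∀ S' ⊆ S, ∀ v ∈ S', Z * ((ind G S').card : ℚ) ≤
      ∑ I ∈ ind G S', (X * (if v ∈ I then 1 else 0) +
        Y * (((S'.filter (fun x => G.Adj v x)) ∩ I).card : ℚ))) →
    ∀ r : V → ℚ, (∀ v ∈ S, 0 < r v) →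
    ∃ w : Finset V → ℚ, (∀ I, 0 ≤ w I) ∧ (∀ I, I ∉ ind G S → w I = 0) ∧
      (∀ v ∈ S, ∑ I ∈ ind G S, w I * (if v ∈ I then 1 else 0) = r v) ∧
      (S = ∅ → ∀ I, w I = 0) ∧
      (S.Nonempty → ∃ v ∈ S, Z * ∑ I ∈ ind G S, w I ≤
        X * r v + Y * ∑ u ∈ S.filter (fun x => G.Adj v x), r u) := by
  induction n using Nat.strong_induction_on with
  | _ n ih =>
    intro S hS hloc r hr
    rcases S.eq_empty_or_nonempty with rfl | hne
    · exact ⟨fun _ => 0, fun _ => le_rfl, fun _ _ => rfl, by simp, fun _ _ => rfl, by simp⟩
    · -- occupation counts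
      set P : V → ℚ := fun v => ∑ I ∈ ind G S, (if v ∈ I then (1 : ℚ) else 0) with hP
      have hPpos : ∀ v ∈ S, 0 < P v := by
        intro v hv
        have h1 : ({v} : Finset V) ∈ ind G S := by
          rw [mem_ind]
          refine ⟨Finset.singleton_subset_iff.2 hv, ?_⟩
          intro x hx y hy
          rw [Finset.mem_singleton] at hx hy
          rw [hx, hy]
          exact G.irrefl
        refine Finset.sum_pos' (fun I _ => by split_ifs <;> norm_num) ⟨{v}, h1, ?_⟩
        rw [if_pos (Finset.mem_singleton_self v)]
        norm_num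
      obtain ⟨v0, hv0, hmin⟩ := Finset.exists_min_image S (fun v => r v / P v) hne
      set τ : ℚ := r v0 / P v0 with hτ
      have hτ0 : 0 ≤ τ := (div_pos (hr v0 hv0) (hPpos v0 hv0)).le
      have hr' : ∀ v ∈ S, 0 ≤ r v - τ * P v := by
        intro v hv
        have h1 := hmin v hv
        rw [sub_nonneg, ← le_div_iff₀ (hPpos v hv)]
        exact h1
      have hr0 : r v0 - τ * P v0 = 0 := by
        rw [hτ, div_mul_cancel₀ _ (hPpos v0 hv0).ne', sub_self]
      set S' : Finset V := S.filter (fun v => 0 < r v - τ * P v) with hS'
      have hS'S : S' ⊆ S := Finset.filter_subset _ _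
      have hv0' : v0 ∉ S' := by
        intro h
        have := (Finset.mem_filter.1 h).2
        rw [hr0] at this
        exact lt_irrefl _ this
      have hlt : S'.card < n := by
        rw [← hS]
        refine Finset.card_lt_card ?_
        rw [Finset.ssubset_iff_of_subset hS'S]
        exact ⟨v0, hv0, hv0'⟩
      obtain ⟨w', hw0, hwz, hws, hwe, hwi⟩ := ih _ hlt S' rfl
        (fun S'' h => hloc S'' (h.trans hS'S)) (fun v => r v - τ * P v)
        (fun v hv => (Finset.mem_filter.1 hv).2)
      have hsub : ind G S' ⊆ ind G S := ind_mono G _ _ hS'S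
      have hzero : ∀ v ∈ S, v ∉ S' → r v - τ * P v = 0 := by
        intro v hv hv'
        have h1 : ¬ 0 < r v - τ * P v := fun h => hv' (Finset.mem_filter.2 ⟨hv, h⟩)
        exact le_antisymm (not_lt.1 h1) (hr' v hv)
      refine ⟨fun I => w' I + (if I ∈ ind G S then τ else 0), ?_, ?_, ?_, ?_, ?_⟩
      · intro I
        refine add_nonneg (hw0 I) ?_
        split_ifs
        · exact hτ0
        · exact le_rfl
      · intro I hI
        simp only
        rw [if_neg hI, hwz I (fun h => hI (hsub h)), add_zero]
      · intro v hv
        have h1 : ∑ I ∈ ind G S, (w' I + (if I ∈ ind G S then τ else 0)) *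
            (if v ∈ I then (1 : ℚ) else 0) =
            ∑ I ∈ ind G S, w' I * (if v ∈ I then (1 : ℚ) else 0) + τ * P v := by
          rw [hP]
          simp only
          rw [Finset.mul_sum, ← Finset.sum_add_distrib]
          refine Finset.sum_congr rfl fun I hI => ?_
          rw [if_pos hI]
          ring
        rw [h1]
        have h2 : ∑ I ∈ ind G S, w' I * (if v ∈ I then (1 : ℚ) else 0) =
            ∑ I ∈ ind G S', w' I * (if v ∈ I then (1 : ℚ) else 0) := by
          symm
          refine Finset.sum_subset hsub fun I _ hI => ?_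
          rw [hwz I hI, zero_mul]
        rw [h2]
        by_cases hvS : v ∈ S'
        · rw [hws v hvS]
          ring
        · have h3 : ∑ I ∈ ind G S', w' I * (if v ∈ I then (1 : ℚ) else 0) = 0 := by
            refine Finset.sum_eq_zero fun I hI => ?_
            rw [mem_ind] at hI
            rw [if_neg (fun h => hvS (hI.1 h)), mul_zero]
          rw [h3]
          have := hzero v hv hvS
          linarith
      · intro h
        rw [h] at hne
        exact absurd hne (by simp)
      · intro _
        -- the vertex
        have hv : ∃ v ∈ S, Z * ∑ I ∈ ind G S', w' I ≤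
            X * (r v - τ * P v) + Y * ∑ u ∈ S.filter (fun x => G.Adj v x), (r u - τ * P u) := by
          rcases S'.eq_empty_or_nonempty with h | h
          · refine ⟨v0, hv0, ?_⟩
            rw [hr0]
            have h1 : ∑ I ∈ ind G S', w' I = 0 := Finset.sum_eq_zero fun I _ => hwe h I
            have h2 : ∑ u ∈ S.filter (fun x => G.Adj v0 x), (r u - τ * P u) = 0 := by
              refine Finset.sum_eq_zero fun u hu => ?_
              refine hzero u (Finset.mem_filter.1 hu).1 ?_
              rw [h]
              simp
            rw [h1, h2]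
            simp
          · obtain ⟨v, hv, hv'⟩ := hwi h
            refine ⟨v, hS'S hv, hv'.trans (le_of_eq ?_)⟩
            congr 2
            refine Finset.sum_subset (Finset.filter_subset_filter _ hS'S) ?_
            intro u hu hu'
            have hu1 := Finset.mem_filter.1 hu
            refine hzero u hu1.1 fun h => hu' (Finset.mem_filter.2 ⟨h, hu1.2⟩)
        obtain ⟨v, hv, hvi⟩ := hv
        refine ⟨v, hv, ?_⟩
        have h1 : ∑ I ∈ ind G S, (w' I + (if I ∈ ind G S then τ else 0)) =
            ∑ I ∈ ind G S', w' I + τ * ((ind G S).card : ℚ) := by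
          rw [Finset.sum_add_distrib]
          congr 1
          · symm
            refine Finset.sum_subset hsub fun I _ hI => hwz I hI
          · rw [Finset.sum_congr rfl (fun I hI => if_pos hI), Finset.sum_const, nsmul_eq_mul,
              mul_comm]
        rw [h1]
        have h2 := hloc S (Finset.Subset.refl _) v hv
        have h3 : ∑ I ∈ ind G S, (X * (if v ∈ I then 1 else 0) +
            Y * (((S.filter (fun x => G.Adj v x)) ∩ I).card : ℚ)) =
            X * P v + Y * ∑ u ∈ S.filter (fun x => G.Adj v x), P u := by
          rw [Finset.sum_add_distrib, ← Finset.mul_sum, ← Finset.mul_sum]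
          congr 2
          rw [hP]
          simp only
          rw [Finset.sum_comm]
          refine Finset.sum_congr rfl fun I _ => ?_
          rw [← Finset.filter_mem_eq_inter, Finset.card_filter]
          push_cast
          rfl
        rw [h3] at h2
        have h4 := mul_le_mul_of_nonneg_left h2 hτ0
        have h5 : ∑ u ∈ S.filter (fun x => G.Adj v x), (r u - τ * P u) =
            ∑ u ∈ S.filter (fun x => G.Adj v x), r u -
              τ * ∑ u ∈ S.filter (fun x => G.Adj v x), P u := by
          rw [Finset.sum_sub_distrib, Finset.mul_sum]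
        rw [h5] at hvi
        nlinarith [hvi, h4]

end

end Pool.Agent.Lib.MP_1818ed_co.C4
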