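import Mathlib
import Pool.Agent.Lib.MP_1818ed_co.C4.Ind

/-! Local occupancy of the uniform random independent set in a C4-free graph. -/

set_option autoImplicit false

namespace Pool.Agent.Lib.MP_1818ed_co.C4

open Finset

section
variable {V : Type} [DecidableEq V] (G : SimpleGraph V) [DecidableRel G.Adj]

/-- fibering over the trace outside the neighbourhood -/
theorem ind_fiber (S : Finset V) (v : V) (ψ : Finset V → ℕ) :
    ∑ I ∈ ind G (S.erase v), ψ I =
      ∑ J ∈ ind G ((S.erase v).filter (fun x => ¬ G.Adj v x)),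
        ∑ A ∈ ind G ((S.filter (fun x => G.Adj v x)).filter (fun u => ∀ x ∈ J, ¬ G.Adj u x)),
          ψ (J ∪ A) := by
  rw [Finset.sum_sigma']
  set T := (S.erase v).filter (fun x => ¬ G.Adj v x) with hT
  set N := S.filter (fun x => G.Adj v x) with hN
  have hdisj : ∀ x, x ∈ T → x ∉ N := by
    intro x hx hx'
    exact (Finset.mem_filter.1 hx).2 (Finset.mem_filter.1 hx').2
  have hcov : ∀ x, x ∈ S.erase v → x ∈ T ∨ x ∈ N := by
    intro x hx
    by_cases h : G.Adj v x
    · exact Or.inr (Finset.mem_filter.2 ⟨Finset.mem_of_mem_erase hx, h⟩)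
    · exact Or.inl (Finset.mem_filter.2 ⟨hx, h⟩)
  have hNS : ∀ x, x ∈ N → x ∈ S.erase v := by
    intro x hx
    have hx' := Finset.mem_filter.1 hx
    exact Finset.mem_erase.2 ⟨fun h => G.irrefl (h ▸ hx'.2), hx'.1⟩
  refine Finset.sum_nbij' (fun I => (⟨I ∩ T, I ∩ N⟩ : Σ _ : Finset V, Finset V))
    (fun p => p.1 ∪ p.2) ?_ ?_ ?_ ?_ ?_
  · intro I hI
    rw [mem_ind] at hI
    rw [Finset.mem_sigma, mem_ind, mem_ind]
    refine ⟨⟨Finset.inter_subset_right, ?_⟩, ?_, ?_⟩
    · intro x hx y hy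
      exact hI.2 x (Finset.mem_inter.1 hx).1 y (Finset.mem_inter.1 hy).1
    · intro x hx
      have hx' := Finset.mem_inter.1 hx
      rw [Finset.mem_filter]
      refine ⟨hx'.2, ?_⟩
      intro y hy
      exact hI.2 x hx'.1 y (Finset.mem_inter.1 hy).1
    · intro x hx y hy
      exact hI.2 x (Finset.mem_inter.1 hx).1 y (Finset.mem_inter.1 hy).1
  · rintro ⟨J, A⟩ hp
    rw [Finset.mem_sigma, mem_ind, mem_ind] at hp
    obtain ⟨⟨h1, h2⟩, h3, h4⟩ := hp
    simp only at h1 h2 h3 h4
    rw [mem_ind]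
    have h5 : ∀ u ∈ A, ∀ x ∈ J, ¬ G.Adj u x := fun u hu x hx =>
      (Finset.mem_filter.1 (h3 hu)).2 x hx
    refine ⟨?_, ?_⟩
    · intro x hx
      rcases Finset.mem_union.1 hx with hx | hx
      · exact (Finset.mem_filter.1 (h1 hx)).1
      · exact hNS x (Finset.mem_filter.1 (h3 hx)).1
    · intro x hx y hy
      rcases Finset.mem_union.1 hx with hx | hx <;> rcases Finset.mem_union.1 hy with hy | hy
      · exact h2 x hx y hy
      · exact fun h => h5 y hy x hx h.symm
      · exact h5 x hx y hy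
      · exact h4 x hx y hy
  · intro I hI
    rw [mem_ind] at hI
    simp only
    ext x
    simp only [Finset.mem_union, Finset.mem_inter]
    constructor
    · rintro (h | h)
      · exact h.1
      · exact h.1
    · intro h
      rcases hcov x (hI.1 h) with h' | h'
      · exact Or.inl ⟨h, h'⟩
      · exact Or.inr ⟨h, h'⟩
  · rintro ⟨J, A⟩ hp
    rw [Finset.mem_sigma, mem_ind, mem_ind] at hp
    obtain ⟨⟨h1, h2⟩, h3, h4⟩ := hp
    simp only at h1 h3
    have hJ : (J ∪ A) ∩ T = J := by
      ext x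
      simp only [Finset.mem_union, Finset.mem_inter]
      constructor
      · rintro ⟨h | h, h'⟩
        · exact h
        · exact absurd (Finset.mem_filter.1 (h3 h)).1 (hdisj x h')
      · intro h
        exact ⟨Or.inl h, h1 h⟩
    have hA : (J ∪ A) ∩ N = A := by
      ext x
      simp only [Finset.mem_union, Finset.mem_inter]
      constructor
      · rintro ⟨h | h, h'⟩
        · exact absurd h' (hdisj x (h1 h))
        · exact h
      · intro h
        exact ⟨Or.inr h, (Finset.mem_filter.1 (h3 h)).1⟩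
    simp only [hJ, hA]
  · intro I hI
    rw [mem_ind] at hI
    congr 1
    ext x
    simp only [Finset.mem_union, Finset.mem_inter]
    constructor
    · intro h
      rcases hcov x (hI.1 h) with h' | h'
      · exact Or.inl ⟨h, h'⟩
      · exact Or.inr ⟨h, h'⟩
    · rintro (h | h)
      · exact h.1
      · exact h.1

theorem occ (hC4 : NoC4 G) (S : Finset V) (v : V) (hv : v ∈ S) (E : ℕ) :
    2 * (E + 1) * (ind G S).card ≤
      ∑ I ∈ ind G S, ((2 * (E + 1) + 2 * 3 ^ E) * (if v ∈ I then 1 else 0) +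
        3 * ((S.filter (fun x => G.Adj v x)) ∩ I).card) := by
  set T := (S.erase v).filter (fun x => ¬ G.Adj v x) with hT
  set N := S.filter (fun x => G.Adj v x) with hN
  have hcard : (ind G S).card = ∑ J ∈ ind G T,
      (1 + (ind G (N.filter (fun u => ∀ x ∈ J, ¬ G.Adj u x))).card) := by
    rw [Finset.sum_add_distrib, ← Finset.card_eq_sum_ones, card_ind_split G S v hv, add_comm]
    congr 1
    have := ind_fiber G S v (fun _ => 1)
    simpa using this
  rw [ind_split G S v hv, ind_fiber G S v, ← Finset.sum_add_distrib, hcard, Finset.mul_sum]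
  refine Finset.sum_le_sum fun J hJ => ?_
  rw [← hT] at *
  rw [← hN] at *
  rw [mem_ind] at hJ
  set F := N.filter (fun u => ∀ x ∈ J, ¬ G.Adj u x) with hF
  have hm : ∀ u ∈ F, (F.filter (fun x => G.Adj u x)).card ≤ 1 := by
    intro u hu
    rw [Finset.card_le_one]
    intro x hx y hy
    have hu' := Finset.mem_filter.1 (Finset.mem_filter.1 hu).1
    have hx' := Finset.mem_filter.1 hx
    have hy' := Finset.mem_filter.1 hy
    have hx2 := Finset.mem_filter.1 (Finset.mem_filter.1 hx'.1).1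
    have hy2 := Finset.mem_filter.1 (Finset.mem_filter.1 hy'.1).1
    exact hC4 u v x y (fun h => G.irrefl (h ▸ hu'.2)) hx'.2 hx2.2 hy'.2 hy2.2
  obtain ⟨e, f, h1, h2⟩ := matching G _ F rfl hm
  have h3 := ar E e f
  rw [← h1, ← h2] at h3
  have h4 : 3 * ∑ A ∈ ind G F, A.card ≤ ∑ A ∈ ind G F,
      ((2 * (E + 1) + 2 * 3 ^ E) * (if v ∈ J ∪ A then 1 else 0) + 3 * (N ∩ (J ∪ A)).card) := by
    rw [Finset.mul_sum]
    refine Finset.sum_le_sum fun A hA => ?_
    rw [mem_ind] at hA
    have h5 : A ⊆ N ∩ (J ∪ A) := by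
      intro x hx
      exact Finset.mem_inter.2 ⟨(Finset.mem_filter.1 (hA.1 hx)).1, Finset.mem_union_right _ hx⟩
    have h6 := Finset.card_le_card h5
    omega
  have h7 : (2 * (E + 1) + 2 * 3 ^ E) ≤
      (2 * (E + 1) + 2 * 3 ^ E) * (if v ∈ insert v J then 1 else 0) +
        3 * (N ∩ insert v J).card := by
    rw [if_pos (Finset.mem_insert_self _ _)]
    omega
  have h8 : 2 * (E + 1) * (1 + (ind G F).card) ≤
      3 * ∑ A ∈ ind G F, A.card + (2 * (E + 1) + 2 * 3 ^ E) := by
    nlinarith [h3]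
  exact h8.trans (Nat.add_le_add h4 h7)

end

end Pool.Agent.Lib.MP_1818ed_co.C4
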