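import Mathlib
import Pool.Agent.Lib.MP_1818ed_co.C4.Greedy
import Pool.Agent.Lib.MP_1818ed_co.C4.Occ

/-! Fractional colourings of `C4`-free graphs: a lower bound on the maximum degree. -/

set_option autoImplicit false

namespace Pool.Agent.Lib.MP_1818ed_co.C4

open Finset

section
variable {V : Type} [DecidableEq V] (G : SimpleGraph V) [DecidableRel G.Adj]

omit [DecidableEq V] [DecidableRel G.Adj] in
theorem fcol_mono (S : Finset V) (a a' b : ℕ) (h : a ≤ a') (hc : FCol G S a b) :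
    FCol G S a' b := by
  obtain ⟨L, hL, hd⟩ := hc
  refine ⟨fun v => (L v).map (Fin.castLEEmb h), ?_, ?_⟩
  · intro v hv
    rw [Finset.card_map, hL v hv]
  · intro u hu v hv huv
    rw [Finset.disjoint_map]
    exact hd u hu v hv huv

/-- from natural weights to a `b`-fold colouring -/
theorem fcol_of_nat (S : Finset V) (n : Finset V → ℕ) (b : ℕ)
    (h : ∀ v ∈ S, ∑ I ∈ ind G S, n I * (if v ∈ I then 1 else 0) = b) :
    FCol G S (∑ I ∈ ind G S, n I) b := by
  classical
  set U : Finset (Σ _ : Finset V, ℕ) := (ind G S).sigma (fun I => Finset.range (n I)) with hU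
  have hUc : U.card = ∑ I ∈ ind G S, n I := by
    rw [hU, Finset.card_sigma]
    exact Finset.sum_congr rfl fun I _ => Finset.card_range _
  obtain e := Finset.equivFinOfCardEq hUc
  refine ⟨fun v => (U.attach.filter (fun x => v ∈ x.1.1)).map e.toEmbedding, ?_, ?_⟩
  · intro v hv
    rw [Finset.card_map, ← h v hv]
    have h1 : (U.attach.filter (fun x => v ∈ x.1.1)).card =
        (U.filter (fun x => v ∈ x.1)).card := by
      rw [Finset.card_filter, Finset.card_filter]
      exact Finset.sum_attach U (fun x => if v ∈ x.1 then 1 else 0)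
    rw [h1, Finset.card_filter, hU, Finset.sum_sigma]
    refine Finset.sum_congr rfl fun I _ => ?_
    by_cases hvI : v ∈ I <;> simp [hvI]
  · intro u hu v hv huv
    rw [Finset.disjoint_map, Finset.disjoint_left]
    intro x hx hx'
    have h1 := (Finset.mem_filter.1 hx).2
    have h2 := (Finset.mem_filter.1 hx').2
    have h3 := (Finset.mem_sigma.1 x.2).1
    rw [mem_ind] at h3
    exact h3.2 u h1 v h2 huv

/-- from rational weights to a `b`-fold colouring -/
theorem fcol_of_rat (S : Finset V) (w : Finset V → ℚ) (hw : ∀ I, 0 ≤ w I)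
    (h : ∀ v ∈ S, ∑ I ∈ ind G S, w I * (if v ∈ I then 1 else 0) = 1) :
    ∃ a b : ℕ, 0 < b ∧ FCol G S a b ∧ (a : ℚ) = b * ∑ I ∈ ind G S, w I := by
  set b : ℕ := ∏ I ∈ ind G S, (w I).den with hb
  have hb0 : 0 < b := Finset.prod_pos fun I _ => (w I).den_pos
  have hn : ∀ I ∈ ind G S, ∃ n : ℕ, (n : ℚ) = b * w I := by
    intro I hI
    obtain ⟨k, hk⟩ := Finset.dvd_prod_of_mem (fun I => (w I).den) hI
    have hnum : 0 ≤ (w I).num := Rat.num_nonneg.2 (hw I)
    obtain ⟨m, hm⟩ := Int.eq_ofNat_of_zero_le hnum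
    refine ⟨k * m, ?_⟩
    have h1 : (w I) * ((w I).den : ℚ) = ((w I).num : ℚ) := Rat.mul_den_eq_num (w I)
    rw [hm] at h1
    have h2 : (b : ℚ) = ((w I).den : ℚ) * k := by
      rw [hb, hk]
      push_cast
      rfl
    rw [h2]
    push_cast
    have h3 : ((m : ℤ) : ℚ) = (m : ℚ) := by norm_cast
    rw [h3] at h1
    rw [← h1]
    ring
  choose! n hn using hn
  refine ⟨∑ I ∈ ind G S, n I, b, hb0, ?_, ?_⟩
  · refine fcol_of_nat G S n b fun v hv => ?_
    have h1 : ((∑ I ∈ ind G S, n I * (if v ∈ I then 1 else 0) : ℕ) : ℚ) = (b : ℚ) := by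
      push_cast
      rw [Finset.sum_congr rfl (fun I hI => by rw [hn I hI])]
      have h2 : ∑ I ∈ ind G S, (b : ℚ) * w I * (if v ∈ I then (1 : ℚ) else 0) =
          b * ∑ I ∈ ind G S, w I * (if v ∈ I then 1 else 0) := by
        rw [Finset.mul_sum]
        exact Finset.sum_congr rfl fun I _ => by ring
      rw [h2, h v hv, mul_one]
    exact_mod_cast h1
  · push_cast
    rw [Finset.mul_sum]
    exact Finset.sum_congr rfl fun I hI => hn I hI

/-- a `C4`-free graph of maximum degree `D` has `χ_f ≤ 1 + (3^E + 3D/2)/(E+1)` -/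
theorem fcol_deg (hC4 : NoC4 G) (S : Finset V) (D E : ℕ)
    (hD : ∀ v ∈ S, (S.filter (fun x => G.Adj v x)).card ≤ D) :
    ∃ a b : ℕ, 0 < b ∧ FCol G S a b ∧
      2 * (E + 1) * a ≤ (2 * (E + 1) + 2 * 3 ^ E + 3 * D) * b := by
  rcases S.eq_empty_or_nonempty with rfl | hne
  · refine ⟨0, 1, one_pos, ⟨fun _ => ∅, by simp, by simp⟩, by simp⟩
  · obtain ⟨w, h1, h2, h3, _, h5⟩ := greedy G (2 * (E + 1) + 2 * 3 ^ E) 3 (2 * (E + 1)) S.card S
      rfl (by
        intro S' _ v hv
        have := occ G hC4 S' v hv E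
        have h6 : ((2 * (E + 1) * (ind G S').card : ℕ) : ℚ) ≤
            ((∑ I ∈ ind G S', ((2 * (E + 1) + 2 * 3 ^ E) * (if v ∈ I then 1 else 0) +
              3 * ((S'.filter (fun x => G.Adj v x)) ∩ I).card) : ℕ) : ℚ) := by
          exact_mod_cast this
        push_cast at h6
        exact h6) (fun _ => 1) (fun _ _ => one_pos)
    obtain ⟨a, b, hb, hcol, hab⟩ := fcol_of_rat G S w h1 h3
    refine ⟨a, b, hb, hcol, ?_⟩
    obtain ⟨v, hv, hle⟩ := h5 hne
    have h7 : ∑ u ∈ S.filter (fun x => G.Adj v x), (1 : ℚ) ≤ D := by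
      rw [Finset.sum_const, nsmul_eq_mul, mul_one]
      exact_mod_cast hD v hv
    have hb' : (0 : ℚ) < b := by exact_mod_cast hb
    have h8 : (2 * ((E : ℚ) + 1)) * a ≤ (2 * ((E : ℚ) + 1) + 2 * 3 ^ E + 3 * D) * b := by
      rw [hab]
      have h9 := mul_le_mul_of_nonneg_left hle hb'.le
      have h10 := mul_le_mul_of_nonneg_left h7 hb'.le
      nlinarith [h9, h10]
    exact_mod_cast h8

theorem deg_lower (hC4 : NoC4 G) (S : Finset V) (M D E : ℕ)
    (hD : ∀ v ∈ S, (S.filter (fun x => G.Adj v x)).card ≤ D)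
    (h : ¬ ∃ b, 0 < b ∧ FCol G S (M * b) b) :
    2 * (E + 1) * M < 2 * (E + 1) + 2 * 3 ^ E + 3 * D := by
  by_contra hcon
  push Not at hcon
  obtain ⟨a, b, hb, hcol, hab⟩ := fcol_deg G hC4 S D E hD
  refine h ⟨b, hb, fcol_mono G S a _ b ?_ hcol⟩
  have h1 : 2 * (E + 1) * a ≤ 2 * (E + 1) * (M * b) := by
    calc 2 * (E + 1) * a ≤ (2 * (E + 1) + 2 * 3 ^ E + 3 * D) * b := hab
      _ ≤ (2 * (E + 1) * M) * b := Nat.mul_le_mul_right _ hcon
      _ = 2 * (E + 1) * (M * b) := by ring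
  exact Nat.le_of_mul_le_mul_left h1 (by positivity)

end

end Pool.Agent.Lib.MP_1818ed_co.C4
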