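import Mathlib
import Pool.Agent.Lib.MP_1818ed_co.C4.Defs

/-! The strategy: a root, its children with labels, disjoint sets of grandchildren. -/

set_option autoImplicit false

namespace Pool.Agent.Lib.MP_1818ed_co.C4

open Finset

section
variable {V K Λ Γ : Type} [Fintype V] [DecidableEq V] [Fintype K] [DecidableEq K]
  [Fintype Λ] [DecidableEq Λ] [AddCommGroup Λ] [Fintype Γ] [DecidableEq Γ] [AddCommGroup Γ]

omit [DecidableEq V] [Fintype V] in
theorem card_shift (W : Finset Γ) (c : Γ) :
    (univ.filter (fun t : Γ => c - t ∈ W)).card = W.card := by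
  refine Finset.card_bij (fun t _ => c - t) ?_ ?_ ?_
  · intro t ht
    exact (Finset.mem_filter.1 ht).2
  · intro t _ t' _ h
    have : c - t = c - t' := h
    exact sub_right_injective this
  · intro w hw
    refine ⟨c - w, ?_, by abel⟩
    rw [Finset.mem_filter]
    refine ⟨Finset.mem_univ _, ?_⟩
    have : c - (c - w) = w := by abel
    rwa [this]

theorem card_shift' (W : Finset Γ) (c : Γ) :
    (univ.filter (fun t : Γ => t - c ∈ W)).card = W.card := by
  refine Finset.card_bij (fun t _ => t - c) ?_ ?_ ?_
  · intro t ht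
    exact (Finset.mem_filter.1 ht).2
  · intro t _ t' _ h
    have : t - c = t' - c := h
    exact sub_left_injective this
  · intro w hw
    refine ⟨w + c, ?_, by abel⟩
    rw [Finset.mem_filter]
    refine ⟨Finset.mem_univ _, ?_⟩
    have : w + c - c = w := by abel
    rwa [this]

theorem card_shift_not (W : Finset Γ) (c : Γ) :
    (univ.filter (fun t : Γ => c - t ∉ W)).card = Fintype.card Γ - W.card := by
  have h1 := Finset.card_filter_add_card_filter_not (s := (univ : Finset Γ)) (fun t => c - t ∈ W)
  rw [card_shift, Finset.card_univ] at h1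
  omega

theorem card_shift_not' (W : Finset Γ) (c : Γ) :
    (univ.filter (fun t : Γ => t - c ∉ W)).card = Fintype.card Γ - W.card := by
  have h1 := Finset.card_filter_add_card_filter_not (s := (univ : Finset Γ)) (fun t => t - c ∈ W)
  rw [card_shift', Finset.card_univ] at h1
  omega

/-- the strategy -/
def guess (v0 : V) (A : Finset V) (κ : V → K) (Ch : V → Finset V) (W : Finset Γ)
    (Wd : V → Finset Λ) (w : V) (c : V → (K → Λ) × Λ × (V → Γ) × Γ) :
    Finset ((K → Λ) × Λ × (V → Γ) × Γ) :=
  if w = v0 then
    (Fintype.piFinset (fun k => univ.filter (fun r => ∀ u ∈ A, κ u = k →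
      r - (∑ u' ∈ A.filter (fun u' => κ u' = k), (c u').2.1) ∉ Wd u))) ×ˢ univ
  else if w ∈ A then
    univ ×ˢ (univ.filter (fun h => (c v0).1 (κ w) -
      (∑ u' ∈ (A.filter (fun u' => κ u' = κ w)).erase w, (c u').2.1 + h) ∈ Wd w)) ×ˢ
     (Fintype.piFinset (fun z => if z ∈ Ch w then
       univ.filter (fun g => (c z).2.2.2 - g ∉ W) else univ)) ×ˢ univ
  else
    univ ×ˢ univ ×ˢ univ ×ˢ (univ.filter (fun t => ∃ u ∈ A, w ∈ Ch u ∧ t - (c u).2.2.1 w ∈ W))

theorem strat (G : SimpleGraph V) (v0 : V) (A : Finset V) (κ : V → K) (Ch : V → Finset V)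
    (W : Finset Γ) (Wd : V → Finset Λ)
    (hA : ∀ u ∈ A, G.Adj v0 u)
    (hκ : ∀ u ∈ A, ∀ u' ∈ A, u ≠ u' → κ u = κ u' → G.Adj u u')
    (hCh : ∀ u ∈ A, ∀ z ∈ Ch u, G.Adj u z ∧ z ≠ v0 ∧ z ∉ A)
    (hdis : ∀ u ∈ A, ∀ u' ∈ A, ∀ z, z ∈ Ch u → z ∈ Ch u' → u = u')
    (h1 : ∀ u ∈ A, (Fintype.card Γ - W.card) ^ (Ch u).card * (Wd u).card * Fintype.card Γ ≤
      W.card * Fintype.card Λ * Fintype.card Γ ^ (Ch u).card)
    (h2 : (∏ k ∈ A.image κ, (Fintype.card Λ - ((A.filter (fun u => κ u = k)).biUnion Wd).card)) *
      Fintype.card Γ ≤ W.card * Fintype.card Λ ^ (A.image κ).card) :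
    GWin G ((K → Λ) × Λ × (V → Γ) × Γ)
      (Fintype.card Λ ^ Fintype.card K * Fintype.card Λ * Fintype.card Γ ^ Fintype.card V *
        W.card) := by
  have hv0A : v0 ∉ A := fun h => G.irrefl (hA v0 h)
  refine ⟨guess v0 A κ Ch W Wd, ?_, ?_, ?_⟩
  · -- locality
    intro w c c' hcc
    unfold guess
    by_cases hw : w = v0
    · rw [if_pos hw, if_pos hw]
      subst hw
      have h3 : ∀ k, ∑ u' ∈ A.filter (fun u' => κ u' = k), (c u').2.1 =
          ∑ u' ∈ A.filter (fun u' => κ u' = k), (c' u').2.1 := by
        intro k
        refine Finset.sum_congr rfl fun u hu => ?_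
        rw [hcc u (hA u (Finset.mem_filter.1 hu).1)]
      simp only [h3]
    · rw [if_neg hw, if_neg hw]
      by_cases hwA : w ∈ A
      · rw [if_pos hwA, if_pos hwA]
        have h3 : ∑ u' ∈ (A.filter (fun u' => κ u' = κ w)).erase w, (c u').2.1 =
            ∑ u' ∈ (A.filter (fun u' => κ u' = κ w)).erase w, (c' u').2.1 := by
          refine Finset.sum_congr rfl fun u hu => ?_
          have hu1 := Finset.mem_erase.1 hu
          have hu2 := Finset.mem_filter.1 hu1.2
          rw [hcc u (hκ w hwA u hu2.1 (Ne.symm hu1.1) hu2.2.symm)]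
        have h4 : (fun z => if z ∈ Ch w then univ.filter (fun g => (c z).2.2.2 - g ∉ W)
            else (univ : Finset Γ)) = (fun z => if z ∈ Ch w then
            univ.filter (fun g => (c' z).2.2.2 - g ∉ W) else (univ : Finset Γ)) := by
          funext z
          by_cases hz : z ∈ Ch w
          · rw [if_pos hz, if_pos hz, hcc z (hCh w hwA z hz).1]
          · rw [if_neg hz, if_neg hz]
        rw [h3, h4, hcc v0 (hA w hwA).symm]
      · rw [if_neg hwA, if_neg hwA]
        have h3 : univ.filter (fun t : Γ => ∃ u ∈ A, w ∈ Ch u ∧ t - (c u).2.2.1 w ∈ W) =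
            univ.filter (fun t : Γ => ∃ u ∈ A, w ∈ Ch u ∧ t - (c' u).2.2.1 w ∈ W) := by
          refine Finset.filter_congr fun t _ => ?_
          constructor
          · rintro ⟨u, hu, hz, h⟩
            refine ⟨u, hu, hz, ?_⟩
            rwa [← hcc u (hCh u hu w hz).1.symm]
          · rintro ⟨u, hu, hz, h⟩
            refine ⟨u, hu, hz, ?_⟩
            rwa [hcc u (hCh u hu w hz).1.symm]
        rw [h3]
  · -- number of guesses
    intro w c
    unfold guess
    by_cases hw : w = v0
    · rw [if_pos hw, Finset.card_product, Fintype.card_piFinset]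
      have h3 : ∏ k : K, (univ.filter (fun r => ∀ u ∈ A, κ u = k →
          r - (∑ u' ∈ A.filter (fun u' => κ u' = k), (c u').2.1) ∉ Wd u)).card ≤
          (∏ k ∈ A.image κ,
            (Fintype.card Λ - ((A.filter (fun u => κ u = k)).biUnion Wd).card)) *
            Fintype.card Λ ^ (Fintype.card K - (A.image κ).card) := by
        rw [← Finset.prod_mul_prod_compl (A.image κ)]
        refine Nat.mul_le_mul ?_ ?_
        · refine Finset.prod_le_prod' fun k _ => ?_
          rw [← card_shift_not' _ (∑ u' ∈ A.filter (fun u' => κ u' = k), (c u').2.1)]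
          refine Finset.card_le_card ?_
          intro r hr
          rw [Finset.mem_filter] at hr ⊢
          refine ⟨hr.1, ?_⟩
          rw [Finset.mem_biUnion]
          rintro ⟨u, hu, hu'⟩
          have hu1 := Finset.mem_filter.1 hu
          exact hr.2 u hu1.1 hu1.2 hu'
        · have h4 : Fintype.card K - (A.image κ).card = ((A.image κ)ᶜ).card :=
            (Finset.card_compl _).symm
          rw [h4]
          refine Finset.prod_le_pow_card _ _ _ fun k _ => ?_
          exact (Finset.card_le_univ _)
      have h5 : Fintype.card Λ ^ Fintype.card K = Fintype.card Λ ^ (A.image κ).card *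
          Fintype.card Λ ^ (Fintype.card K - (A.image κ).card) := by
        rw [← pow_add]
        congr 1
        have := Finset.card_le_univ (A.image κ)
        omega
      rw [Finset.card_univ, Fintype.card_prod, Fintype.card_prod, Fintype.card_fun, h5]
      refine (Nat.mul_le_mul_right _ h3).trans ?_
      set P := ∏ k ∈ A.image κ,
        (Fintype.card Λ - ((A.filter (fun u => κ u = k)).biUnion Wd).card)
      set L := Fintype.card Λ
      set R := Fintype.card Λ ^ (Fintype.card K - (A.image κ).card)
      calc P * L ^ (Fintype.card K - (A.image κ).card) *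
            (L * (Fintype.card Γ ^ Fintype.card V * Fintype.card Γ))
          = (P * Fintype.card Γ) * (L ^ (Fintype.card K - (A.image κ).card) * L *
              Fintype.card Γ ^ Fintype.card V) := by ring
        _ ≤ (W.card * L ^ (A.image κ).card) * (L ^ (Fintype.card K - (A.image κ).card) * L *
              Fintype.card Γ ^ Fintype.card V) := Nat.mul_le_mul_right _ h2
        _ = _ := by ring
    · rw [if_neg hw]
      by_cases hwA : w ∈ A
      · rw [if_pos hwA, Finset.card_product, Finset.card_product, Finset.card_product,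
          Fintype.card_piFinset]
        have h3 : (univ.filter (fun h => (c v0).1 (κ w) -
            (∑ u' ∈ (A.filter (fun u' => κ u' = κ w)).erase w, (c u').2.1 + h) ∈ Wd w)).card =
            (Wd w).card := by
          rw [← card_shift (Wd w) ((c v0).1 (κ w) -
            ∑ u' ∈ (A.filter (fun u' => κ u' = κ w)).erase w, (c u').2.1)]
          congr 1
          refine Finset.filter_congr fun t _ => ?_
          rw [sub_sub]
        have h4 : ∏ z : V, (if z ∈ Ch w then univ.filter (fun g => (c z).2.2.2 - g ∉ W)
            else (univ : Finset Γ)).card = (Fintype.card Γ - W.card) ^ (Ch w).card *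
              Fintype.card Γ ^ (Fintype.card V - (Ch w).card) := by
          rw [← Finset.prod_mul_prod_compl (Ch w)]
          congr 1
          · refine Finset.prod_eq_pow_card fun z hz => ?_
            rw [if_pos hz, card_shift_not]
          · rw [← Finset.card_compl]
            refine Finset.prod_eq_pow_card fun z hz => ?_
            rw [if_neg (Finset.mem_compl.1 hz), Finset.card_univ]
        have h5 : Fintype.card Γ ^ Fintype.card V = Fintype.card Γ ^ (Ch w).card *
            Fintype.card Γ ^ (Fintype.card V - (Ch w).card) := by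
          rw [← pow_add]
          congr 1
          have := Finset.card_le_univ (Ch w)
          omega
        rw [h3, h4, Finset.card_univ, Finset.card_univ, Fintype.card_fun, h5]
        have h6 := h1 w hwA
        set D := (Ch w).card
        calc Fintype.card Λ ^ Fintype.card K * ((Wd w).card *
              ((Fintype.card Γ - W.card) ^ D * Fintype.card Γ ^ (Fintype.card V - D) *
                Fintype.card Γ))
            = ((Fintype.card Γ - W.card) ^ D * (Wd w).card * Fintype.card Γ) *
              (Fintype.card Λ ^ Fintype.card K * Fintype.card Γ ^ (Fintype.card V - D)) := by ring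
          _ ≤ (W.card * Fintype.card Λ * Fintype.card Γ ^ D) *
              (Fintype.card Λ ^ Fintype.card K * Fintype.card Γ ^ (Fintype.card V - D)) :=
            Nat.mul_le_mul_right _ h6
          _ = _ := by ring
      · rw [if_neg hwA, Finset.card_product, Finset.card_product, Finset.card_product,
          Finset.card_univ, Finset.card_univ, Finset.card_univ, Fintype.card_fun,
          Fintype.card_fun]
        have h3 : (univ.filter (fun t : Γ => ∃ u ∈ A, w ∈ Ch u ∧
            t - (c u).2.2.1 w ∈ W)).card ≤ W.card := by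
          by_cases h : ∃ u ∈ A, w ∈ Ch u
          · obtain ⟨u, hu, hwu⟩ := h
            rw [← card_shift' W ((c u).2.2.1 w)]
            refine Finset.card_le_card ?_
            intro t ht
            rw [Finset.mem_filter] at ht ⊢
            refine ⟨ht.1, ?_⟩
            obtain ⟨u', hu', hwu', h⟩ := ht.2
            rwa [hdis u hu u' hu' w hwu hwu']
          · have h4 : univ.filter (fun t : Γ => ∃ u ∈ A, w ∈ Ch u ∧
                t - (c u).2.2.1 w ∈ W) = ∅ := by
              rw [Finset.filter_eq_empty_iff]
              rintro t _ ⟨u, hu, hwu, _⟩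
              exact h ⟨u, hu, hwu⟩
            rw [h4]
            simp
        calc Fintype.card Λ ^ Fintype.card K * (Fintype.card Λ *
              (Fintype.card Γ ^ Fintype.card V * (univ.filter (fun t : Γ => ∃ u ∈ A, w ∈ Ch u ∧
                t - (c u).2.2.1 w ∈ W)).card))
            = (Fintype.card Λ ^ Fintype.card K * Fintype.card Λ *
              Fintype.card Γ ^ Fintype.card V) * (univ.filter (fun t : Γ => ∃ u ∈ A, w ∈ Ch u ∧
                t - (c u).2.2.1 w ∈ W)).card := by ring
          _ ≤ _ := Nat.mul_le_mul_left _ h3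
  · -- winning
    intro c
    by_contra hcon
    push Not at hcon
    have hr := hcon v0
    unfold guess at hr
    rw [if_pos rfl, Finset.mem_product, Fintype.mem_piFinset] at hr
    push Not at hr
    have hr2 : ∃ u ∈ A, (c v0).1 (κ u) -
        (∑ u' ∈ A.filter (fun u' => κ u' = κ u), (c u').2.1) ∈ Wd u := by
      by_contra hne
      push Not at hne
      refine hr ?_ (Finset.mem_univ _)
      intro k
      rw [Finset.mem_filter]
      refine ⟨Finset.mem_univ _, ?_⟩
      intro u hu huk
      subst huk
      exact hne u hu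
    obtain ⟨u, hu, hWu⟩ := hr2
    have hu0 : u ≠ v0 := fun h => hv0A (h ▸ hu)
    have hcu := hcon u
    unfold guess at hcu
    rw [if_neg hu0, if_pos hu] at hcu
    have hz : ∃ z ∈ Ch u, (c z).2.2.2 - (c u).2.2.1 z ∈ W := by
      by_contra hne
      push Not at hne
      apply hcu
      rw [Finset.mem_product, Finset.mem_product, Finset.mem_product, Fintype.mem_piFinset]
      refine ⟨Finset.mem_univ _, ?_, ?_, Finset.mem_univ _⟩
      · rw [Finset.mem_filter]
        refine ⟨Finset.mem_univ _, ?_⟩
        have h3 : ∑ u' ∈ (A.filter (fun u' => κ u' = κ u)).erase u, (c u').2.1 + (c u).2.1 =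
            ∑ u' ∈ A.filter (fun u' => κ u' = κ u), (c u').2.1 :=
          Finset.sum_erase_add _ _ (Finset.mem_filter.2 ⟨hu, rfl⟩)
        rw [h3]
        exact hWu
      · intro z
        by_cases hz : z ∈ Ch u
        · rw [if_pos hz, Finset.mem_filter]
          exact ⟨Finset.mem_univ _, hne z hz⟩
        · rw [if_neg hz]
          exact Finset.mem_univ _
    obtain ⟨z, hz, hWz⟩ := hz
    obtain ⟨_, hz0, hzA⟩ := hCh u hu z hz
    have hcz := hcon z
    unfold guess at hcz
    rw [if_neg hz0, if_neg hzA] at hcz
    apply hcz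
    rw [Finset.mem_product, Finset.mem_product, Finset.mem_product, Finset.mem_filter]
    exact ⟨Finset.mem_univ _, Finset.mem_univ _, Finset.mem_univ _, Finset.mem_univ _,
      u, hu, hz, hWz⟩

end

end Pool.Agent.Lib.MP_1818ed_co.C4
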