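import Mathlib
import Pool.Agent.Lib.MP_1818ed_co.C4.Strat

/-! Winning games with `a/p` colours per guess: distinct labels and matched labels. -/

set_option autoImplicit false

namespace Pool.Agent.Lib.MP_1818ed_co.C4

open Finset

/-- some game on `G` with `a/p` colours per guess is won -/
def Ratio {V : Type} (G : SimpleGraph V) (a p : ℕ) : Prop :=
  ∃ (C : Type) (_ : Fintype C) (s : ℕ), 0 < s ∧ Fintype.card C * p = s * a ∧ GWin G C s

section
variable {V : Type} [Fintype V] [DecidableEq V]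

theorem ratio_strat {K : Type} [Fintype K] [DecidableEq K] (G : SimpleGraph V) (v0 : V)
    (A : Finset V) (κ : V → K) (Ch : V → Finset V) (a b p : ℕ) [NeZero a] [NeZero b]
    (hp : 0 < p) (hpa : p ≤ a) (Wd : V → Finset (ZMod b))
    (hA : ∀ u ∈ A, G.Adj v0 u)
    (hκ : ∀ u ∈ A, ∀ u' ∈ A, u ≠ u' → κ u = κ u' → G.Adj u u')
    (hCh : ∀ u ∈ A, ∀ z ∈ Ch u, G.Adj u z ∧ z ≠ v0 ∧ z ∉ A)
    (hdis : ∀ u ∈ A, ∀ u' ∈ A, ∀ z, z ∈ Ch u → z ∈ Ch u' → u = u')
    (h1 : ∀ u ∈ A, (a - p) ^ (Ch u).card * (Wd u).card * a ≤ p * b * a ^ (Ch u).card)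
    (h2 : (∏ k ∈ A.image κ, (b - ((A.filter (fun u => κ u = k)).biUnion Wd).card)) * a ≤
      p * b ^ (A.image κ).card) : Ratio G a p := by
  have hc : p ≤ (univ : Finset (ZMod a)).card := by
    rw [Finset.card_univ, ZMod.card]
    exact hpa
  obtain ⟨W, _, hW⟩ := Finset.exists_subset_card_eq hc
  have ha0 : 0 < a := Nat.pos_of_ne_zero (NeZero.ne a)
  have hb0 : 0 < b := Nat.pos_of_ne_zero (NeZero.ne b)
  have h3 := strat (K := K) (Λ := ZMod b) (Γ := ZMod a) G v0 A κ Ch W Wd hA hκ hCh hdis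
    (by simpa only [ZMod.card, hW] using h1) (by simpa only [ZMod.card, hW] using h2)
  refine ⟨_, inferInstance, _, ?_, ?_, h3⟩
  · rw [ZMod.card, ZMod.card, hW]
    positivity
  · rw [Fintype.card_prod, Fintype.card_prod, Fintype.card_prod, Fintype.card_fun,
      Fintype.card_fun, ZMod.card, ZMod.card, hW]
    ring

variable (G : SimpleGraph V) [DecidableRel G.Adj]

omit [Fintype V] in
theorem dis_of_noC4 (hC4 : NoC4 G) (v0 u u' z : V) (hu : G.Adj v0 u) (hu' : G.Adj v0 u')
    (hz : G.Adj u z) (hz' : G.Adj u' z) (hz0 : z ≠ v0) : u = u' := by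
  by_contra hne
  exact hz0 (hC4 u u' z v0 hne hz hz' hu.symm hu'.symm)

/-- distinct labels -/
theorem ratio_distinct (hC4 : NoC4 G) (S : Finset V) (v0 : V) (d w p a b : ℕ)
    (hp : 0 < p) (hpa : p ≤ a) (hb : 0 < b) (hw : w ≤ b)
    (hd : ∀ u ∈ S.filter (fun x => G.Adj v0 x),
      d ≤ ((S.filter (fun x => G.Adj u x)).filter (fun z => z ≠ v0 ∧ ¬ G.Adj v0 z)).card)
    (h1 : (a - p) ^ d * w * a ≤ p * b * a ^ d)
    (h2 : (b - w) ^ (S.filter (fun x => G.Adj v0 x)).card * a ≤
      p * b ^ (S.filter (fun x => G.Adj v0 x)).card) : Ratio G a p := by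
  haveI : NeZero a := ⟨by omega⟩
  haveI : NeZero b := ⟨hb.ne'⟩
  set A := S.filter (fun x => G.Adj v0 x) with hA
  have hch : ∀ u, ∃ T : Finset V, u ∈ A → T ⊆ (S.filter (fun x => G.Adj u x)).filter
      (fun z => z ≠ v0 ∧ ¬ G.Adj v0 z) ∧ T.card = d := by
    intro u
    by_cases hu : u ∈ A
    · obtain ⟨T, hT, hTc⟩ := Finset.exists_subset_card_eq (hd u hu)
      exact ⟨T, fun _ => ⟨hT, hTc⟩⟩
    · exact ⟨∅, fun h => absurd h hu⟩
  choose Ch hCh using hch
  have hc : w ≤ (univ : Finset (ZMod b)).card := by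
    rw [Finset.card_univ, ZMod.card]
    exact hw
  obtain ⟨W, _, hW⟩ := Finset.exists_subset_card_eq hc
  have hmem : ∀ u ∈ A, ∀ z ∈ Ch u, G.Adj u z ∧ z ≠ v0 ∧ ¬ G.Adj v0 z := by
    intro u hu z hz
    have h3 := Finset.mem_filter.1 ((hCh u hu).1 hz)
    exact ⟨(Finset.mem_filter.1 h3.1).2, h3.2⟩
  have hadj : ∀ u ∈ A, G.Adj v0 u := fun u hu => (Finset.mem_filter.1 hu).2
  refine ratio_strat G v0 A (id : V → V) Ch a b p hp hpa (fun _ => W) hadj ?_ ?_ ?_ ?_ ?_
  · intro u _ u' _ hne h
    exact absurd h hne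
  · intro u hu z hz
    obtain ⟨h3, h4, h5⟩ := hmem u hu z hz
    exact ⟨h3, h4, fun h => h5 (hadj z h)⟩
  · intro u hu u' hu' z hz hz'
    obtain ⟨h3, h4, _⟩ := hmem u hu z hz
    exact dis_of_noC4 G hC4 v0 u u' z (hadj u hu) (hadj u' hu') h3 (hmem u' hu' z hz').1 h4
  · intro u hu
    rw [(hCh u hu).2, hW]
    exact h1
  · rw [Finset.image_id]
    have h3 : ∏ k ∈ A, (b - ((A.filter (fun u => id u = k)).biUnion (fun _ => W)).card) =
        (b - w) ^ A.card := by
      refine Finset.prod_eq_pow_card fun k hk => ?_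
      have h4 : (A.filter (fun u => id u = k)).biUnion (fun _ => W) = W := by
        ext x
        rw [Finset.mem_biUnion]
        constructor
        · rintro ⟨_, _, h⟩
          exact h
        · intro h
          exact ⟨k, Finset.mem_filter.2 ⟨hk, rfl⟩, h⟩
      rw [h4, hW]
    rw [h3]
    exact h2

/-- matched labels -/
theorem ratio_matched (hC4 : NoC4 G) (S : Finset V) (v0 : V) (dm ds wm ws p a b Y M : ℕ)
    (hp : 0 < p) (hpa : p ≤ a) (hb : 0 < b) (hwm : 2 * wm ≤ b) (hws : ws ≤ b)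
    (hdm : ∀ u ∈ S.filter (fun x => G.Adj v0 x),
      (∃ u' ∈ S.filter (fun x => G.Adj v0 x), G.Adj u u') →
      dm ≤ ((S.filter (fun x => G.Adj u x)).filter (fun z => z ≠ v0 ∧ ¬ G.Adj v0 z)).card)
    (hds : ∀ u ∈ S.filter (fun x => G.Adj v0 x),
      (¬ ∃ u' ∈ S.filter (fun x => G.Adj v0 x), G.Adj u u') →
      ds ≤ ((S.filter (fun x => G.Adj u x)).filter (fun z => z ≠ v0 ∧ ¬ G.Adj v0 z)).card)
    (h1 : (a - p) ^ dm * wm * a ≤ p * b * a ^ dm)
    (h1' : (a - p) ^ ds * ws * a ≤ p * b * a ^ ds)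
    (hM : M ≤ (S.filter (fun x => G.Adj v0 x)).card)
    (hY : Y ≤ b) (hYs : b - ws ≤ Y) (hYm : (b - 2 * wm) * b ≤ Y ^ 2)
    (h2 : Y ^ M * a ≤ p * b ^ M) : Ratio G a p := by
  haveI : NeZero a := ⟨by omega⟩
  haveI : NeZero b := ⟨hb.ne'⟩
  set A := S.filter (fun x => G.Adj v0 x) with hA
  have hadj : ∀ u ∈ A, G.Adj v0 u := fun u hu => (Finset.mem_filter.1 hu).2
  -- the matching
  have hone : ∀ u ∈ A, (A.filter (fun x => G.Adj u x)).card ≤ 1 := by
    intro u hu
    rw [Finset.card_le_one]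
    intro x hx y hy
    have hx' := Finset.mem_filter.1 hx
    have hy' := Finset.mem_filter.1 hy
    exact hC4 u v0 x y (fun h => G.irrefl (h ▸ hadj u hu)) hx'.2 (hadj x hx'.1) hy'.2
      (hadj y hy'.1)
  have huniq : ∀ u ∈ A, ∀ x ∈ A, ∀ y ∈ A, G.Adj u x → G.Adj u y → x = y := by
    intro u hu x hx y hy hux huy
    exact Finset.card_le_one.1 (hone u hu) x (Finset.mem_filter.2 ⟨hx, hux⟩) y
      (Finset.mem_filter.2 ⟨hy, huy⟩)
  -- grandchildren
  have hch : ∀ u, ∃ T : Finset V, u ∈ A → T ⊆ (S.filter (fun x => G.Adj u x)).filter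
      (fun z => z ≠ v0 ∧ ¬ G.Adj v0 z) ∧ ((∃ u' ∈ A, G.Adj u u') → T.card = dm) ∧
      ((¬ ∃ u' ∈ A, G.Adj u u') → T.card = ds) := by
    intro u
    by_cases hu : u ∈ A
    · by_cases h : ∃ u' ∈ A, G.Adj u u'
      · obtain ⟨T, hT, hTc⟩ := Finset.exists_subset_card_eq (hdm u hu h)
        exact ⟨T, fun _ => ⟨hT, fun _ => hTc, fun h' => absurd h h'⟩⟩
      · obtain ⟨T, hT, hTc⟩ := Finset.exists_subset_card_eq (hds u hu h)
        exact ⟨T, fun _ => ⟨hT, fun h' => absurd h' h, fun _ => hTc⟩⟩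
    · exact ⟨∅, fun h => absurd h hu⟩
  choose Ch hCh using hch
  have hmem : ∀ u ∈ A, ∀ z ∈ Ch u, G.Adj u z ∧ z ≠ v0 ∧ ¬ G.Adj v0 z := by
    intro u hu z hz
    have h3 := Finset.mem_filter.1 ((hCh u hu).1 hz)
    exact ⟨(Finset.mem_filter.1 h3.1).2, h3.2⟩
  -- windows
  have hcu : (univ : Finset (ZMod b)).card = b := by rw [Finset.card_univ, ZMod.card]
  obtain ⟨W1, _, hW1⟩ : ∃ W ⊆ (univ : Finset (ZMod b)), W.card = wm :=
    Finset.exists_subset_card_eq (by omega)
  obtain ⟨W2, hW2s, hW2⟩ : ∃ W ⊆ W1ᶜ, W.card = wm :=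
    Finset.exists_subset_card_eq (by rw [Finset.card_compl, ZMod.card]; omega)
  obtain ⟨W3, _, hW3⟩ : ∃ W ⊆ (univ : Finset (ZMod b)), W.card = ws :=
    Finset.exists_subset_card_eq (by omega)
  have hdW : Disjoint W1 W2 := by
    rw [Finset.disjoint_left]
    intro x hx hx'
    exact (Finset.mem_compl.1 (hW2s hx')) hx
  set e : V → ℕ := fun v => (Fintype.equivFin V v).1 with he
  have heinj : Function.Injective e := by
    intro x y h
    exact (Fintype.equivFin V).injective (Fin.ext h)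
  set Wd : V → Finset (ZMod b) := fun u =>
    if ∃ u' ∈ A, G.Adj u u' then (if ∃ u' ∈ A, G.Adj u u' ∧ e u < e u' then W1 else W2)
    else W3 with hWd
  set κ : V → Finset V := fun u => insert u (A.filter (fun x => G.Adj u x)) with hκd
  have hself : ∀ u, u ∈ κ u := fun u => Finset.mem_insert_self _ _
  have hclass : ∀ u ∈ A, A.filter (fun x => κ x = κ u) = κ u := by
    intro u hu
    ext x
    rw [Finset.mem_filter]
    constructor
    · rintro ⟨_, h⟩
      rw [← h]
      exact hself x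
    · intro hx
      rcases Finset.mem_insert.1 hx with rfl | hx
      · exact ⟨hu, rfl⟩
      · have hx' := Finset.mem_filter.1 hx
        refine ⟨hx'.1, ?_⟩
        have h3 : A.filter (fun y => G.Adj u y) = {x} := by
          ext y
          rw [Finset.mem_filter, Finset.mem_singleton]
          constructor
          · rintro ⟨hy, huy⟩
            exact huniq u hu y hy x hx'.1 huy hx'.2
          · rintro rfl
            exact hx'
        have h4 : A.filter (fun y => G.Adj x y) = {u} := by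
          ext y
          rw [Finset.mem_filter, Finset.mem_singleton]
          constructor
          · rintro ⟨hy, hxy⟩
            exact huniq x hx'.1 y hy u hu hxy hx'.2.symm
          · rintro rfl
            exact ⟨hu, hx'.2.symm⟩
        simp only [hκd]
        rw [h3, h4, Finset.pair_comm]
  refine ratio_strat G v0 A κ Ch a b p hp hpa Wd hadj ?_ ?_ ?_ ?_ ?_
  · intro u hu u' hu' hne h
    have h3 : u' ∈ κ u := h ▸ hself u'
    rcases Finset.mem_insert.1 h3 with h4 | h4
    · exact absurd h4.symm hne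
    · exact (Finset.mem_filter.1 h4).2
  · intro u hu z hz
    obtain ⟨h3, h4, h5⟩ := hmem u hu z hz
    exact ⟨h3, h4, fun h => h5 (hadj z h)⟩
  · intro u hu u' hu' z hz hz'
    obtain ⟨h3, h4, _⟩ := hmem u hu z hz
    exact dis_of_noC4 G hC4 v0 u u' z (hadj u hu) (hadj u' hu') h3 (hmem u' hu' z hz').1 h4
  · intro u hu
    by_cases h : ∃ u' ∈ A, G.Adj u u'
    · have h3 : (Wd u).card = wm := by
        simp only [hWd]
        rw [if_pos h]
        split_ifs
        · exact hW1
        · exact hW2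
      rw [(hCh u hu).2.1 h, h3]
      exact h1
    · have h3 : (Wd u).card = ws := by
        simp only [hWd]
        rw [if_neg h]
        exact hW3
      rw [(hCh u hu).2.2 h, h3]
      exact h1'
  · -- the product
    have hb' : (0 : ℚ) < b := by exact_mod_cast hb
    have hYq : (Y : ℚ) / b ≤ 1 := by
      rw [div_le_one hb']
      exact_mod_cast hY
    have hY0 : (0 : ℚ) ≤ (Y : ℚ) / b := by positivity
    have hfac : ∀ k ∈ A.image κ,
        (((b - ((A.filter (fun u => κ u = k)).biUnion Wd).card : ℕ) : ℚ)) ≤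
        b * ((Y : ℚ) / b) ^ (A.filter (fun u => κ u = k)).card := by
      intro k hk
      obtain ⟨u, hu, rfl⟩ := Finset.mem_image.1 hk
      rw [hclass u hu]
      by_cases h : ∃ u' ∈ A, G.Adj u u'
      · obtain ⟨u', hu', huu⟩ := h
        have hne : u ≠ u' := huu.ne
        have h3 : κ u = {u, u'} := by
          simp only [hκd]
          congr 1
          ext y
          rw [Finset.mem_filter, Finset.mem_singleton]
          constructor
          · rintro ⟨hy, huy⟩
            exact huniq u hu y hy u' hu' huy huu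
          · rintro rfl
            exact ⟨hu', huu⟩
        have h4 : (Wd u = W1 ∧ Wd u' = W2) ∨ (Wd u = W2 ∧ Wd u' = W1) := by
          rcases lt_or_gt_of_ne (fun h => hne (heinj h)) with h5 | h5
          · left
            constructor
            · simp only [hWd]
              rw [if_pos ⟨u', hu', huu⟩, if_pos ⟨u', hu', huu, h5⟩]
            · simp only [hWd]
              rw [if_pos ⟨u, hu, huu.symm⟩, if_neg]
              rintro ⟨y, hy, hy1, hy2⟩
              rw [huniq u' hu' y hy u hu hy1 huu.symm] at hy2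
              omega
          · right
            constructor
            · simp only [hWd]
              rw [if_pos ⟨u', hu', huu⟩, if_neg]
              rintro ⟨y, hy, hy1, hy2⟩
              rw [huniq u hu y hy u' hu' hy1 huu] at hy2
              omega
            · simp only [hWd]
              rw [if_pos ⟨u, hu, huu.symm⟩, if_pos ⟨u, hu, huu.symm, h5⟩]
        have h5 : ((κ u).biUnion Wd).card = 2 * wm := by
          rw [h3, Finset.biUnion_insert, Finset.singleton_biUnion]
          rcases h4 with ⟨h6, h7⟩ | ⟨h6, h7⟩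
          · rw [h6, h7, Finset.card_union_of_disjoint hdW, hW1, hW2]
            ring
          · rw [h6, h7, Finset.card_union_of_disjoint hdW.symm, hW1, hW2]
            ring
        have h6 : (κ u).card = 2 := by
          rw [h3, Finset.card_pair hne]
        rw [h5, h6]
        have h7 : (((b - 2 * wm : ℕ) : ℚ)) * b ≤ (Y : ℚ) ^ 2 := by exact_mod_cast hYm
        have h8 : (b : ℚ) * ((Y : ℚ) / b) ^ 2 = (Y : ℚ) ^ 2 / b := by
          field_simp
        rw [h8, le_div_iff₀ hb']
        exact h7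
      · have h3 : κ u = {u} := by
          simp only [hκd]
          have : A.filter (fun x => G.Adj u x) = ∅ := by
            rw [Finset.filter_eq_empty_iff]
            intro x hx hux
            exact h ⟨x, hx, hux⟩
          rw [this]
          rfl
        have h4 : Wd u = W3 := by
          simp only [hWd]
          rw [if_neg h]
        rw [h3, Finset.singleton_biUnion, h4, hW3, Finset.card_singleton, pow_one,
          mul_div_cancel₀ _ hb'.ne']
        exact_mod_cast hYs
    have hprod : ((∏ k ∈ A.image κ,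
        (b - ((A.filter (fun u => κ u = k)).biUnion Wd).card) : ℕ) : ℚ) ≤
        (b : ℚ) ^ (A.image κ).card * ((Y : ℚ) / b) ^ A.card := by
      rw [Nat.cast_prod]
      calc ∏ k ∈ A.image κ, (((b - ((A.filter (fun u => κ u = k)).biUnion Wd).card : ℕ) : ℚ))
          ≤ ∏ k ∈ A.image κ, (b * ((Y : ℚ) / b) ^ (A.filter (fun u => κ u = k)).card) :=
            Finset.prod_le_prod (fun k _ => Nat.cast_nonneg _) hfac
        _ = (b : ℚ) ^ (A.image κ).card * ((Y : ℚ) / b) ^ A.card := by
            rw [Finset.prod_mul_distrib, Finset.prod_const, Finset.prod_pow_eq_pow_sum,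
              ← Finset.card_eq_sum_card_image κ A]
    have h3 : ((Y : ℚ) / b) ^ A.card ≤ ((Y : ℚ) / b) ^ M := pow_le_pow_of_le_one hY0 hYq hM
    have h4 : ((Y : ℚ) / b) ^ M * a ≤ p := by
      rw [div_pow, div_mul_eq_mul_div, div_le_iff₀ (by positivity)]
      exact_mod_cast h2
    have h5 : ((∏ k ∈ A.image κ,
        (b - ((A.filter (fun u => κ u = k)).biUnion Wd).card) : ℕ) : ℚ) * a ≤
        p * (b : ℚ) ^ (A.image κ).card := by
      have hbp : (0 : ℚ) ≤ (b : ℚ) ^ (A.image κ).card := by positivity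
      have ha' : (0 : ℚ) ≤ (a : ℚ) := by positivity
      calc _ ≤ ((b : ℚ) ^ (A.image κ).card * ((Y : ℚ) / b) ^ A.card) * a :=
            mul_le_mul_of_nonneg_right hprod ha'
        _ ≤ ((b : ℚ) ^ (A.image κ).card * ((Y : ℚ) / b) ^ M) * a :=
            mul_le_mul_of_nonneg_right (mul_le_mul_of_nonneg_left h3 hbp) ha'
        _ = (b : ℚ) ^ (A.image κ).card * (((Y : ℚ) / b) ^ M * a) := by ring
        _ ≤ (b : ℚ) ^ (A.image κ).card * p := mul_le_mul_of_nonneg_left h4 hbp
        _ = _ := by ring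
    exact_mod_cast h5

end

end Pool.Agent.Lib.MP_1818ed_co.C4
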