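import Mathlib
import Pool.Agent.Lib.MP_1818ed_co.Basic
import Pool.Agent.Lib.MP_1818ed_co.C4.Defs

/-! The game with `s` guesses on `G` and the hat guessing game on `G[K_s]`. -/

set_option autoImplicit false

namespace Pool.Agent.Lib.MP_1818ed_co.C4

open Finset

/-- cluster sums -/
theorem win_blow {V A : Type} [AddCommGroup A] (G : SimpleGraph V) (s : ℕ)
    (h : GWin G A s) : Win (blow G s) A := by
  classical
  obtain ⟨F, hloc, hcard, hwin⟩ := h
  have hcov : ∀ T : Finset A, T.card ≤ s → ∃ g : Fin s → A, ∀ a ∈ T, ∃ i, g i = a := by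
    intro T hT
    have hinj : Nonempty (T ↪ Fin s) := by
      apply Function.Embedding.nonempty_of_card_le
      simpa using hT
    obtain ⟨e⟩ := hinj
    refine ⟨fun i => if h : ∃ t : T, e t = i then (h.choose : A) else 0, ?_⟩
    intro a ha
    refine ⟨e ⟨a, ha⟩, ?_⟩
    have h1 : ∃ t : T, e t = e ⟨a, ha⟩ := ⟨_, rfl⟩
    have h2 : h1.choose = ⟨a, ha⟩ := e.injective h1.choose_spec
    simp only [dif_pos h1]
    rw [h2]
  choose! g hg using hcov
  -- cluster sums
  let α : (V × Fin s → A) → V → A := fun c u => ∑ i, c (u, i)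
  refine ⟨fun x c => g (F x.1 (α c)) x.2 - ∑ j ∈ univ.erase x.2, c (x.1, j), ?_, ?_⟩
  · rintro ⟨v, i⟩ c c' hcc
    have h1 : F v (α c) = F v (α c') := by
      refine hloc v _ _ (fun u hu => ?_)
      refine Finset.sum_congr rfl fun j _ => ?_
      exact hcc (u, j) (Or.inl hu)
    simp only [h1]
    congr 1
    refine Finset.sum_congr rfl fun j hj => ?_
    exact hcc (v, j) (Or.inr ⟨rfl, (Finset.ne_of_mem_erase hj).symm⟩)
  · intro c
    obtain ⟨v, hv⟩ := hwin (α c)
    obtain ⟨i, hi⟩ := hg _ (hcard v (α c)) _ hv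
    refine ⟨(v, i), ?_⟩
    simp only [hi]
    have h2 : α c v = c (v, i) + ∑ j ∈ univ.erase i, c (v, j) :=
      (Finset.add_sum_erase univ (fun j => c (v, j)) (Finset.mem_univ i)).symm
    rw [h2]
    abel

/-- multiples -/
theorem gwin_mul {V C : Type} (G : SimpleGraph V) (s m : ℕ) (h : GWin G C s) :
    GWin G (C × Fin m) (s * m) := by
  classical
  obtain ⟨F, hloc, hcard, hwin⟩ := h
  refine ⟨fun v c => (F v (fun u => (c u).1)) ×ˢ univ, ?_, ?_, ?_⟩
  · intro v c c' hcc
    have h1 : F v (fun u => (c u).1) = F v (fun u => (c' u).1) :=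
      hloc v _ _ (fun u hu => by rw [hcc u hu])
    simp only [h1]
  · intro v c
    rw [Finset.card_product, Finset.card_univ, Fintype.card_fin]
    exact Nat.mul_le_mul_right _ (hcard v _)
  · intro c
    obtain ⟨v, hv⟩ := hwin (fun u => (c u).1)
    refine ⟨v, ?_⟩
    rw [Finset.mem_product]
    exact ⟨hv, Finset.mem_univ _⟩

theorem gwin_mono {V C : Type} (G : SimpleGraph V) (s s' : ℕ) (hs : s ≤ s') (h : GWin G C s) :
    GWin G C s' := by
  obtain ⟨F, hloc, hcard, hwin⟩ := h
  exact ⟨F, hloc, fun v c => (hcard v c).trans hs, hwin⟩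

theorem gwin_equiv {V C D : Type} (G : SimpleGraph V) (s : ℕ) (e : C ≃ D) (h : GWin G C s) :
    GWin G D s := by
  classical
  obtain ⟨F, hloc, hcard, hwin⟩ := h
  refine ⟨fun v c => (F v (fun u => e.symm (c u))).map e.toEmbedding, ?_, ?_, ?_⟩
  · intro v c c' hcc
    have h1 : F v (fun u => e.symm (c u)) = F v (fun u => e.symm (c' u)) :=
      hloc v _ _ (fun u hu => by rw [hcc u hu])
    simp only [h1]
  · intro v c
    rw [Finset.card_map]
    exact hcard v _
  · intro c
    obtain ⟨v, hv⟩ := hwin (fun u => e.symm (c u))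
    refine ⟨v, ?_⟩
    rw [Finset.mem_map]
    exact ⟨e.symm (c v), hv, by simp⟩

/-- from a game with `s₁` guesses and `q₁` colours: `G[K_s]` wins with `m q₁` colours as soon as
`m s₁ ≤ s` -/
theorem win_of_gwin {V C : Type} [Fintype C] (G : SimpleGraph V) (s₁ m s : ℕ)
    (h : GWin G C s₁) (hs : s₁ * m ≤ s) (hpos : 0 < Fintype.card C * m) :
    Win (blow G s) (Fin (Fintype.card C * m)) := by
  classical
  have h1 : GWin G (C × Fin m) s := gwin_mono G _ _ hs (gwin_mul G s₁ m h)
  have hcard : Fintype.card (C × Fin m) = Fintype.card C * m := by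
    rw [Fintype.card_prod, Fintype.card_fin]
  haveI : NeZero (Fintype.card C * m) := ⟨hpos.ne'⟩
  have e : C × Fin m ≃ Fin (Fintype.card C * m) := Fintype.equivFinOfCardEq hcard
  exact win_blow G s (gwin_equiv G s e h1)

end Pool.Agent.Lib.MP_1818ed_co.C4
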