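import Mathlib
import Pool.Agent.Lib.MP_1818ed_co.C4.Gam
import Pool.Agent.Lib.MP_1818ed_co.C4.Frac
import Pool.Agent.Lib.MP_1818ed_co.C4.Col
import Pool.Agent.Lib.MP_1818ed_co.C4.Big

/-! Winning games with more than `N` colours per guess. -/

set_option autoImplicit false

namespace Pool.Agent.Lib.MP_1818ed_co.C4

open Finset

section
variable {V : Type} [Fintype V] [DecidableEq V] (G : SimpleGraph V) [DecidableRel G.Adj]

omit [Fintype V] in
theorem grand (S : Finset V) (v0 u : V) :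
    (S.filter (fun x => G.Adj u x)).card ≤
      1 + ((S.filter (fun x => G.Adj v0 x)).filter (fun x => G.Adj u x)).card +
        ((S.filter (fun x => G.Adj u x)).filter (fun z => z ≠ v0 ∧ ¬ G.Adj v0 z)).card := by
  have h1 : S.filter (fun x => G.Adj u x) ⊆ ({v0} ∪
      (S.filter (fun x => G.Adj v0 x)).filter (fun x => G.Adj u x)) ∪
        (S.filter (fun x => G.Adj u x)).filter (fun z => z ≠ v0 ∧ ¬ G.Adj v0 z) := by
    intro x hx
    have hx' := Finset.mem_filter.1 hx
    rw [Finset.mem_union, Finset.mem_union, Finset.mem_singleton, Finset.mem_filter,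
      Finset.mem_filter, Finset.mem_filter, Finset.mem_filter]
    by_cases h2 : x = v0
    · exact Or.inl (Or.inl h2)
    · by_cases h3 : G.Adj v0 x
      · exact Or.inl (Or.inr ⟨⟨hx'.1, h3⟩, hx'.2⟩)
      · exact Or.inr ⟨hx', h2, h3⟩
  have h2 := Finset.card_le_card h1
  have h3 := Finset.card_union_le ({v0} ∪
      (S.filter (fun x => G.Adj v0 x)).filter (fun x => G.Adj u x))
        ((S.filter (fun x => G.Adj u x)).filter (fun z => z ≠ v0 ∧ ¬ G.Adj v0 z))
  have h4 := Finset.card_union_le ({v0} : Finset V)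
      ((S.filter (fun x => G.Adj v0 x)).filter (fun x => G.Adj u x))
  rw [Finset.card_singleton] at h4
  omega

omit [Fintype V] in
theorem grand_m (hC4 : NoC4 G) (S : Finset V) (v0 u : V) (d : ℕ)
    (hu : u ∈ S.filter (fun x => G.Adj v0 x))
    (hd : d + 2 ≤ (S.filter (fun x => G.Adj u x)).card) :
    d ≤ ((S.filter (fun x => G.Adj u x)).filter (fun z => z ≠ v0 ∧ ¬ G.Adj v0 z)).card := by
  have h1 := grand G S v0 u
  have h2 : ((S.filter (fun x => G.Adj v0 x)).filter (fun x => G.Adj u x)).card ≤ 1 := by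
    rw [Finset.card_le_one]
    intro x hx y hy
    have hx' := Finset.mem_filter.1 hx
    have hy' := Finset.mem_filter.1 hy
    exact hC4 u v0 x y (fun h => G.irrefl (h ▸ (Finset.mem_filter.1 hu).2)) hx'.2
      (Finset.mem_filter.1 hx'.1).2 hy'.2 (Finset.mem_filter.1 hy'.1).2
  omega

omit [Fintype V] in
theorem grand_s (S : Finset V) (v0 u : V) (d : ℕ)
    (hn : ¬ ∃ u' ∈ S.filter (fun x => G.Adj v0 x), G.Adj u u')
    (hd : d + 1 ≤ (S.filter (fun x => G.Adj u x)).card) :
    d ≤ ((S.filter (fun x => G.Adj u x)).filter (fun z => z ≠ v0 ∧ ¬ G.Adj v0 z)).card := by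
  have h1 := grand G S v0 u
  have h2 : ((S.filter (fun x => G.Adj v0 x)).filter (fun x => G.Adj u x)).card = 0 := by
    rw [Finset.card_eq_zero, Finset.filter_eq_empty_iff]
    intro x hx hux
    exact hn ⟨x, hx, hux⟩
  omega

/-- triangle-free, minimum degree two -/
theorem ratio_three (hC4 : NoC4 G)
    (ht : ∀ u v w : V, G.Adj u v → G.Adj u w → G.Adj v w → False)
    (S : Finset V) (hS : S.Nonempty)
    (hdeg : ∀ v ∈ S, 2 ≤ (S.filter (fun u => G.Adj v u)).card) : Ratio G 301 100 := by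
  obtain ⟨v0, hv0⟩ := hS
  refine ratio_distinct G hC4 S v0 1 497 100 301 1000 (by norm_num) (by norm_num) (by norm_num)
    (by norm_num) ?_ (by norm_num) ?_
  · intro u hu
    have hu' := Finset.mem_filter.1 hu
    refine grand_s G S v0 u 1 ?_ (hdeg u hu'.1)
    rintro ⟨u', hu1, hu2⟩
    exact ht v0 u u' hu'.2 (Finset.mem_filter.1 hu1).2 hu2
  · obtain ⟨k, hk⟩ : ∃ k, (S.filter (fun x => G.Adj v0 x)).card = 2 + k :=
      ⟨_, (Nat.add_sub_of_le (hdeg v0 hv0)).symm⟩
    rw [hk, pow_add, pow_add]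
    have h1 : (1000 - 497) ^ k ≤ 1000 ^ k := Nat.pow_le_pow_left (by norm_num) k
    calc (1000 - 497) ^ 2 * (1000 - 497) ^ k * 301
        = ((1000 - 497) ^ 2 * 301) * (1000 - 497) ^ k := by ring
      _ ≤ (100 * 1000 ^ 2) * 1000 ^ k := Nat.mul_le_mul (by norm_num) h1
      _ = 100 * (1000 ^ 2 * 1000 ^ k) := by ring

/-- `N = 4, ..., 8` -/
theorem ratio_small (hC4 : NoC4 G) (N : ℕ) (hN : 4 ≤ N) (hN' : N ≤ 8)
    (S : Finset V) (hS : S.Nonempty)
    (hdeg : ∀ v ∈ S, N - 1 ≤ (S.filter (fun u => G.Adj v u)).card) :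
    Ratio G (100 * N + 1) 100 := by
  obtain ⟨v0, hv0⟩ := hS
  have key : ∀ wm ws Y : ℕ, 2 * wm ≤ 1000 → ws ≤ 1000 →
      (100 * N + 1 - 100) ^ (N - 3) * wm * (100 * N + 1) ≤
        100 * 1000 * (100 * N + 1) ^ (N - 3) →
      (100 * N + 1 - 100) ^ (N - 2) * ws * (100 * N + 1) ≤
        100 * 1000 * (100 * N + 1) ^ (N - 2) →
      Y ≤ 1000 → 1000 - ws ≤ Y → (1000 - 2 * wm) * 1000 ≤ Y ^ 2 →
      Y ^ (N - 1) * (100 * N + 1) ≤ 100 * 1000 ^ (N - 1) → Ratio G (100 * N + 1) 100 := by
    intro wm ws Y h1 h2 h3 h4 h5 h6 h7 h8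
    refine ratio_matched G hC4 S v0 (N - 3) (N - 2) wm ws 100 (100 * N + 1) 1000 Y (N - 1)
      (by norm_num) (by omega) (by norm_num) h1 h2 ?_ ?_ h3 h4 (hdeg v0 hv0) h5 h6 h7 h8
    · intro u hu _
      refine grand_m G hC4 S v0 u (N - 3) hu ?_
      have := hdeg u (Finset.mem_filter.1 hu).1
      omega
    · intro u hu hn
      refine grand_s G S v0 u (N - 2) hn ?_
      have := hdeg u (Finset.mem_filter.1 hu).1
      omega
  interval_cases N
  · exact key 332 442 580 (by norm_num) (by norm_num) (by norm_num) (by norm_num) (by norm_num)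
      (by norm_num) (by norm_num) (by norm_num)
  · exact key 311 389 615 (by norm_num) (by norm_num) (by norm_num) (by norm_num) (by norm_num)
      (by norm_num) (by norm_num) (by norm_num)
  · exact key 287 344 656 (by norm_num) (by norm_num) (by norm_num) (by norm_num) (by norm_num)
      (by norm_num) (by norm_num) (by norm_num)
  · exact key 264 307 693 (by norm_num) (by norm_num) (by norm_num) (by norm_num) (by norm_num)
      (by norm_num) (by norm_num) (by norm_num)
  · exact key 243 277 723 (by norm_num) (by norm_num) (by norm_num) (by norm_num) (by norm_num)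
      (by norm_num) (by norm_num) (by norm_num)

/-- `N ≥ 9` -/
theorem ratio_large (hC4 : NoC4 G) (N : ℕ) (hN : 9 ≤ N)
    (hF : ¬ ∃ b, 0 < b ∧ FCol G univ ((N - 1) * b) b) :
    Ratio G (100 * N + 1) 100 := by
  obtain ⟨S, hS, hSF, hdeg⟩ := crit_frac G (N - 1) hF
  obtain ⟨v0, hv0, hmax⟩ := Finset.exists_max_image S
    (fun v => (S.filter (fun u => G.Adj v u)).card) hS
  set D := (S.filter (fun u => G.Adj v0 u)).card with hD
  have hDE : ∀ E : ℕ, 2 * (E + 1) * (N - 1) < 2 * (E + 1) + 2 * 3 ^ E + 3 * D := fun E =>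
    deg_lower G hC4 S (N - 1) D E hmax hSF
  have key : ∀ w b : ℕ, 0 < b → w ≤ b →
      (100 * N + 1 - 100) ^ (N - 3) * w * (100 * N + 1) ≤ 100 * b * (100 * N + 1) ^ (N - 3) →
      (b - w) ^ D * (100 * N + 1) ≤ 100 * b ^ D → Ratio G (100 * N + 1) 100 := by
    intro w b h1 h2 h3 h4
    refine ratio_distinct G hC4 S v0 (N - 3) w 100 (100 * N + 1) b (by norm_num) (by omega) h1 h2
      ?_ h3 h4
    intro u hu
    refine grand_m G hC4 S v0 u (N - 3) hu ?_
    have := hdeg u (Finset.mem_filter.1 hu).1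
    omega
  rcases Nat.lt_or_ge N 16 with h16 | h16
  · have hD2 : 2 * N - 9 ≤ D := by
      have := hDE 2
      omega
    have key2 : ∀ w : ℕ, w ≤ 1000 →
        (100 * N + 1 - 100) ^ (N - 3) * w * (100 * N + 1) ≤
          100 * 1000 * (100 * N + 1) ^ (N - 3) →
        (1000 - w) ^ (2 * N - 9) * (100 * N + 1) ≤ 100 * 1000 ^ (2 * N - 9) →
        Ratio G (100 * N + 1) 100 := by
      intro w h1 h2 h3
      refine key w 1000 (by norm_num) h1 h2 ?_
      obtain ⟨k, hk⟩ : ∃ k, D = (2 * N - 9) + k := ⟨_, (Nat.add_sub_of_le hD2).symm⟩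
      rw [hk, pow_add, pow_add]
      have h4 : (1000 - w) ^ k ≤ 1000 ^ k := Nat.pow_le_pow_left (by omega) k
      calc (1000 - w) ^ (2 * N - 9) * (1000 - w) ^ k * (100 * N + 1)
          = ((1000 - w) ^ (2 * N - 9) * (100 * N + 1)) * (1000 - w) ^ k := by ring
        _ ≤ (100 * 1000 ^ (2 * N - 9)) * 1000 ^ k := Nat.mul_le_mul h3 h4
        _ = 100 * (1000 ^ (2 * N - 9) * 1000 ^ k) := by ring
    clear key
    interval_cases N
    · exact key2 224 (by norm_num) (by norm_num) (by norm_num)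
    · exact key2 208 (by norm_num) (by norm_num) (by norm_num)
    · exact key2 194 (by norm_num) (by norm_num) (by norm_num)
    · exact key2 182 (by norm_num) (by norm_num) (by norm_num)
    · exact key2 171 (by norm_num) (by norm_num) (by norm_num)
    · exact key2 161 (by norm_num) (by norm_num) (by norm_num)
    · exact key2 152 (by norm_num) (by norm_num) (by norm_num)
  · obtain ⟨k, rfl⟩ : ∃ k, N = k + 16 := ⟨N - 16, by omega⟩
    have e1 : k + 16 - 1 = k + 15 := by omega
    have e2 : k + 16 - 3 = k + 13 := by omega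
    have e3 : 100 * (k + 16) + 1 - 100 = 100 * (k + 15) + 1 := by omega
    rw [e1] at hDE
    rw [e2, e3] at key
    refine key (100 * (100 * (k + 16) + 1) ^ (k + 13))
      ((100 * (k + 16) + 1) * (100 * (k + 15) + 1) ^ (k + 13)) (by positivity) (big_w k) ?_
      (big k D hDE)
    refine le_of_eq ?_
    ring

end

end Pool.Agent.Lib.MP_1818ed_co.C4
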