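import Mathlib
import Pool.Agent.Lib.MP_1818ed_co.Basic
import Pool.Agent.Lib.MP_1818ed_co.C4.Game
import Pool.Agent.Lib.MP_1818ed_co.C4.Num

/-! The theorem on clique blow-ups of `C4`-free graphs. -/

set_option autoImplicit false

namespace Pool.Agent.Lib.MP_1818ed_co.C4

open Finset

theorem good_of_win {W : Type} (B : SimpleGraph W) (x : W) (n : ℕ) (hwin : Win B (Fin n))
    (hcol : B.Colorable n) : Good B := by
  intro q hq
  have hlt : n < q := by
    by_contra hcon
    push Not at hcon
    apply hq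
    rcases Nat.eq_zero_or_pos q with rfl | h0
    · exact ⟨fun v c => c v, fun v c _ _ => (c v).elim0, fun c => (c x).elim0⟩
    · exact colors W (Fin n) (Fin q) B (Fin.castLE hcon) ⟨⟨0, h0⟩⟩ (Fin.castLE_injective hcon)
        hwin
  exact hcol.mono (by omega)

theorem good_of_empty {W : Type} (B : SimpleGraph W) (h : IsEmpty W) : Good B := by
  intro q _
  exact ⟨SimpleGraph.Coloring.mk (fun w => (h.false w).elim) (fun {w} => (h.false w).elim)⟩

/-- a fractional colouring with `N` colours and a game with more than `N` colours per guess -/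
theorem good_of_ratio {V : Type} [Fintype V] (G : SimpleGraph V) (N b a p : ℕ) (hb : 0 < b)
    (hF : FCol G univ (N * b) b) (hR : Ratio G a p) (ha : N * p + 1 ≤ a) :
    ∃ s₀ : ℕ, ∀ s : ℕ, s₀ ≤ s → Good (blow G s) := by
  obtain ⟨C, _, s₁, hs₁, hC, hW⟩ := hR
  have hCp : 0 < Fintype.card C * p := by
    rw [hC]
    exact Nat.mul_pos hs₁ (by omega)
  have hC0 : 0 < Fintype.card C := Nat.pos_of_mul_pos_right hCp
  have hp0 : 0 < p := Nat.pos_of_mul_pos_left hCp
  obtain ⟨v, _⟩ : ∃ v : V, True := by
    obtain ⟨F, _, _, hw⟩ := hW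
    haveI : Nonempty C := Fintype.card_pos_iff.1 hC0
    obtain ⟨v, _⟩ := hw (fun _ => Classical.arbitrary C)
    exact ⟨v, trivial⟩
  refine ⟨b * N * p + (N * p + 1) * s₁ + 1, ?_⟩
  intro s hs
  have hs0 : s₁ ≤ s := by
    have h1 : 1 * s₁ ≤ (N * p + 1) * s₁ := Nat.mul_le_mul_right _ (by omega)
    rw [one_mul] at h1
    omega
  have hm : 0 < s / s₁ := Nat.div_pos hs0 hs₁
  have hwin := win_of_gwin G s₁ (s / s₁) s hW (Nat.mul_div_le s s₁) (Nat.mul_pos hC0 hm)
  refine good_of_win _ (v, ⟨0, by omega⟩) _ hwin ?_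
  have h1 : s ≤ (s / b + 1) * b := by
    have := Nat.div_add_mod s b
    have := Nat.mod_lt s hb
    nlinarith
  have hcol := col_blow G (N * b) b (s / b + 1) s hF h1
  refine hcol.mono ?_
  -- the numbers
  have h2 : (s / b + 1) * (N * b) ≤ (s + b) * N := by
    have h3 : s / b * b ≤ s := Nat.div_mul_le_self s b
    nlinarith [Nat.mul_le_mul_right N h3]
  have h4 : s < s₁ * (s / s₁) + s₁ := by
    have := Nat.div_add_mod s s₁
    have := Nat.mod_lt s hs₁
    omega
  have h5 : (s + b) * N * p ≤ Fintype.card C * (s / s₁) * p := by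
    have h6 : Fintype.card C * (s / s₁) * p = a * (s₁ * (s / s₁)) := by
      calc Fintype.card C * (s / s₁) * p = (Fintype.card C * p) * (s / s₁) := by ring
        _ = _ := by rw [hC]; ring
    rw [h6]
    set y := s₁ * (s / s₁) with hy
    have h7 : (N * p + 1) * y ≤ a * y := Nat.mul_le_mul_right _ ha
    refine le_trans ?_ h7
    have h8 : (N * p + 1) * s ≤ (N * p + 1) * (y + s₁) := Nat.mul_le_mul_left _ h4.le
    nlinarith [h8, hs]
  exact h2.trans (Nat.le_of_mul_le_mul_right h5 hp0)

/-- the sum game on a clique -/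
theorem gwin_clique {V : Type} (G : SimpleGraph V) (n : ℕ) [NeZero n] (K : Fin n → V)
    (hK : ∀ i j, i ≠ j → G.Adj (K i) (K j)) : GWin G (ZMod n) 1 := by
  classical
  have hinj : Function.Injective K := by
    intro i j h
    by_contra hne
    exact (hK i j hne).ne h
  refine ⟨fun v c => if h : ∃ i, K i = v then
    {((h.choose.1 : ℕ) : ZMod n) - ∑ j ∈ univ.erase h.choose, c (K j)} else ∅, ?_, ?_, ?_⟩
  · intro v c c' hcc
    by_cases h : ∃ i, K i = v
    · simp only [dif_pos h]
      congr 2
      refine Finset.sum_congr rfl fun j hj => ?_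
      refine hcc _ ?_
      have h1 := hK h.choose j (Finset.ne_of_mem_erase hj).symm
      rwa [h.choose_spec] at h1
    · simp only [dif_neg h]
  · intro v c
    by_cases h : ∃ i, K i = v
    · simp only [dif_pos h]
      simp
    · simp only [dif_neg h]
      simp
  · intro c
    have hlt : (∑ j, c (K j)).val < n := ZMod.val_lt _
    refine ⟨K ⟨_, hlt⟩, ?_⟩
    have h : ∃ i, K i = K ⟨_, hlt⟩ := ⟨_, rfl⟩
    have h1 : h.choose = ⟨_, hlt⟩ := hinj h.choose_spec
    simp only [dif_pos h]
    rw [h1, Finset.mem_singleton, ZMod.natCast_zmod_val, eq_sub_iff_add_eq]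
    exact Finset.add_sum_erase univ (fun j => c (K j)) (Finset.mem_univ _)

theorem good_clique {V : Type} [Fintype V] (G : SimpleGraph V) (n : ℕ) (hn : 0 < n)
    (K : Fin n → V) (hK : ∀ i j, i ≠ j → G.Adj (K i) (K j)) (hcol : G.Colorable n)
    (s : ℕ) (hs : 0 < s) : Good (blow G s) := by
  haveI : NeZero n := ⟨hn.ne'⟩
  have h1 := gwin_clique G n K hK
  have h2 := win_of_gwin G 1 s s h1 (by omega) (by rw [ZMod.card]; positivity)
  rw [ZMod.card] at h2
  refine good_of_win _ (K ⟨0, hn⟩, ⟨0, hs⟩) _ h2 ?_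
  have h3 := fcol_of_colorable G n hcol
  have h4 := col_blow G (n * 1) 1 s s h3 (by omega)
  exact h4.mono (by rw [mul_one, mul_comm])

theorem main {V : Type} [Fintype V] (G : SimpleGraph V) (hC4 : NoC4 G) :
    ∃ s₀ : ℕ, ∀ s : ℕ, s₀ ≤ s → Good (blow G s) := by
  classical
  rcases isEmpty_or_nonempty V with hV | ⟨⟨v⟩⟩
  · refine ⟨0, fun s _ => good_of_empty _ ⟨fun x => hV.false x.1⟩⟩
  -- the least `N`
  have hex : ∃ N : ℕ, ∃ b, 0 < b ∧ FCol G univ (N * b) b :=
    ⟨Fintype.card V, 1, one_pos, fcol_of_colorable G _ G.colorable_of_fintype⟩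
  set N := Nat.find hex with hN
  obtain ⟨b, hb, hF⟩ := Nat.find_spec hex
  rw [← hN] at hF
  have hmin : ∀ M, M < N → ¬ ∃ b, 0 < b ∧ FCol G univ (M * b) b := fun M hM =>
    Nat.find_min hex hM
  rcases Nat.lt_or_ge N 4 with h4 | h4
  · by_cases hc3 : G.Colorable 3
    · by_cases ht : ∃ x y z : V, G.Adj x y ∧ G.Adj x z ∧ G.Adj y z
      · obtain ⟨x, y, z, hxy, hxz, hyz⟩ := ht
        refine ⟨1, fun s hs => good_clique G 3 (by norm_num) ![x, y, z] ?_ hc3 s hs⟩
        intro i j hij
        fin_cases i <;> fin_cases j <;> first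
          | exact absurd rfl hij
          | simpa using hxy
          | simpa using hxz
          | simpa using hyz
          | simpa using hxy.symm
          | simpa using hxz.symm
          | simpa using hyz.symm
      · by_cases hc2 : G.Colorable 2
        · by_cases he : ∃ x y : V, G.Adj x y
          · obtain ⟨x, y, hxy⟩ := he
            refine ⟨1, fun s hs => good_clique G 2 (by norm_num) ![x, y] ?_ hc2 s hs⟩
            intro i j hij
            fin_cases i <;> fin_cases j <;> first
              | exact absurd rfl hij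
              | simpa using hxy
              | simpa using hxy.symm
          · have hc1 : G.Colorable 1 := by
              refine ⟨SimpleGraph.Coloring.mk (fun _ => 0) ?_⟩
              intro x y hxy
              exact absurd ⟨x, y, hxy⟩ he
            refine ⟨1, fun s hs => good_clique G 1 (by norm_num) (fun _ => v) ?_ hc1 s hs⟩
            intro i j hij
            exact absurd (Subsingleton.elim i j) hij
        · obtain ⟨S, hS, hdeg⟩ := crit_chi G 2 hc2
          have hR := ratio_three G hC4 (fun u v w h1 h2 h3 => ht ⟨u, v, w, h1, h2, h3⟩) S hS hdeg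
          exact good_of_ratio G N b 301 100 hb hF hR (by omega)
    · obtain ⟨S, hS, hdeg⟩ := crit_chi G 3 hc3
      have hR := ratio_small G hC4 4 (by norm_num) (by norm_num) S hS hdeg
      exact good_of_ratio G N b _ 100 hb hF hR (by omega)
  · have hm := hmin (N - 1) (by omega)
    rcases Nat.lt_or_ge N 9 with h9 | h9
    · obtain ⟨S, hS, _, hdeg⟩ := crit_frac G (N - 1) hm
      have hR := ratio_small G hC4 N h4 (by omega) S hS hdeg
      exact good_of_ratio G N b _ 100 hb hF hR (by omega)
    · have hR := ratio_large G hC4 N h9 hm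
      exact good_of_ratio G N b _ 100 hb hF hR (by omega)

end Pool.Agent.Lib.MP_1818ed_co.C4
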